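import Mathlib

/-!
# Minors of rank-deficient matrices with a block-triangular zero pattern
-/

namespace Pool.Agent.Lib.MP_fd5214_co

open Matrix

/-- `D + 1` rows and columns of a matrix of rank at most `D`; the selected submatrix is block lower
triangular with nonzero diagonal entries outside one diagonal block. Then the block is singular:
it has a nonzero vector in its left kernel. -/
theorem block_kernel {n m D : ℕ} {X : Fin n → Fin m → ℝ} (A : Fin n → Fin D → ℝ)
    (C : Fin m → Fin D → ℝ) (hX : ∀ i j, X i j = A i ⬝ᵥ C j)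
    (r : Fin (D + 1) → Fin n) (c : Fin (D + 1) → Fin m) (s k : ℕ) (hsk : s + k ≤ D + 1)
    (hz : ∀ i j : Fin (D + 1), i < j → ¬ (s ≤ (i : ℕ) ∧ (j : ℕ) < s + k) → X (r i) (c j) = 0)
    (hd : ∀ i : Fin (D + 1), ¬ (s ≤ (i : ℕ) ∧ (i : ℕ) < s + k) → X (r i) (c i) ≠ 0) :
    ∃ g : Fin k → ℝ, (∃ p, g p ≠ 0) ∧ ∀ q : Fin k,
      ∑ p : Fin k, g p * X (r ⟨s + p, by omega⟩) (c ⟨s + q, by omega⟩) = 0 := by
  have hdep : ¬ LinearIndependent ℝ (fun i => A (r i)) := by
    intro h
    have := h.fintype_card_le_finrank
    simp at this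
  obtain ⟨g, hg, i₀, hi₀⟩ := Fintype.not_linearIndependent_iff.1 hdep
  have hgX : ∀ j, ∑ i, g i * X (r i) j = 0 := by
    intro j
    have h1 : (∑ i, g i • A (r i)) ⬝ᵥ C j = 0 := by rw [hg, zero_dotProduct]
    rw [sum_dotProduct] at h1
    rw [← h1]
    refine Finset.sum_congr rfl fun i _ => ?_
    rw [hX, smul_dotProduct, smul_eq_mul]
  -- the last coefficients vanish
  have hlast : ∀ t : ℕ, ∀ i : Fin (D + 1), (i : ℕ) + t = D → s + k ≤ (i : ℕ) → g i = 0 := by
    intro t
    induction t using Nat.strong_induction_on with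
    | _ t ih =>
      intro i hi hsi
      have h1 := hgX (c i)
      rw [Finset.sum_eq_single i] at h1
      · rcases mul_eq_zero.1 h1 with h2 | h2
        · exact h2
        · exact absurd h2 (hd i (by omega))
      · intro b _ hb
        rcases lt_or_gt_of_ne hb with hlt | hgt
        · rw [hz b i hlt (by omega), mul_zero]
        · rw [ih (D - b) (by rw [Fin.lt_def] at hgt; omega) b
            (by have := b.2; omega) (by rw [Fin.lt_def] at hgt; omega), zero_mul]
      · intro h; exact absurd (Finset.mem_univ i) h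
  have hlast' : ∀ i : Fin (D + 1), s + k ≤ (i : ℕ) → g i = 0 := fun i hi =>
    hlast (D - i) i (by have := i.2; omega) hi
  refine ⟨fun p => g ⟨s + p, by omega⟩, ?_, ?_⟩
  · by_contra hall
    push Not at hall
    have hblock : ∀ i : Fin (D + 1), s ≤ (i : ℕ) → g i = 0 := by
      intro i hi
      by_cases h : (i : ℕ) < s + k
      · have := hall ⟨i - s, by omega⟩
        have he : (⟨s + (i - s), by omega⟩ : Fin (D + 1)) = i := Fin.ext (by simp; omega)
        simp only [he] at this
        exact this
      · exact hlast' i (by omega)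
    have hfirst : ∀ t : ℕ, ∀ i : Fin (D + 1), (i : ℕ) + t = s → g i = 0 := by
      intro t
      induction t using Nat.strong_induction_on with
      | _ t ih =>
        intro i hi
        rcases Nat.eq_zero_or_pos t with h0 | hpos
        · exact hblock i (by omega)
        · have h1 := hgX (c i)
          rw [Finset.sum_eq_single i] at h1
          · rcases mul_eq_zero.1 h1 with h2 | h2
            · exact h2
            · exact absurd h2 (hd i (by omega))
          · intro b _ hb
            rcases lt_or_gt_of_ne hb with hlt | hgt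
            · rw [hz b i hlt (by rw [Fin.lt_def] at hlt; omega), mul_zero]
            · rw [Fin.lt_def] at hgt
              by_cases hbs : s ≤ (b : ℕ)
              · rw [hblock b hbs, zero_mul]
              · rw [ih (s - b) (by omega) b (by omega), zero_mul]
          · intro h; exact absurd (Finset.mem_univ i) h
    apply hi₀
    by_cases h : s ≤ (i₀ : ℕ)
    · exact hblock i₀ h
    · exact hfirst (s - i₀) i₀ (by omega)
  · intro q
    have h1 := hgX (c ⟨s + q, by omega⟩)
    rw [← h1]
    refine Finset.sum_of_injOn (fun p : Fin k => (⟨s + p, by omega⟩ : Fin (D + 1))) ?_ ?_ ?_ ?_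
    · intro a _ b _ hab
      simp only [Fin.mk.injEq] at hab
      exact Fin.ext (by omega)
    · intro a _; exact Finset.mem_univ _
    · intro i _ hi
      by_cases h : s + k ≤ (i : ℕ)
      · rw [hlast' i h, zero_mul]
      · have h2 : (i : ℕ) < s := by
          by_contra h3
          exact hi ⟨⟨i - s, by omega⟩, by simp, Fin.ext (by simp; omega)⟩
        rw [hz i ⟨s + q, by omega⟩ (by rw [Fin.lt_def]; simp; omega) (by omega), mul_zero]
    · intro p _; rfl

/-- The binomial relation given by a `4 × 4` singular block with the zero pattern of a square. -/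
theorem square_relation {x01 x12 x23 x30 x02 x13 x20 x31 : ℝ} {g : Fin 4 → ℝ}
    (h01 : 0 < x01) (h12 : 0 < x12) (h23 : 0 < x23) (h30 : 0 < x30) (hg : ∃ p, g p ≠ 0)
    (e0 : g 2 * x20 + g 3 * x30 = 0) (e1 : g 0 * x01 + g 3 * x31 = 0)
    (e2 : g 0 * x02 + g 1 * x12 = 0) (e3 : g 1 * x13 + g 2 * x23 = 0) :
    x01 * x12 * x23 * x30 = x02 * x13 * x20 * x31 := by
  have k01 : g 0 = 0 → g 1 = 0 := by
    intro h; rw [h] at e2
    rcases mul_eq_zero.1 (by linarith : g 1 * x12 = 0) with h | h
    · exact h
    · exact absurd h h12.ne'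
  have k12 : g 1 = 0 → g 2 = 0 := by
    intro h; rw [h] at e3
    rcases mul_eq_zero.1 (by linarith : g 2 * x23 = 0) with h | h
    · exact h
    · exact absurd h h23.ne'
  have k23 : g 2 = 0 → g 3 = 0 := by
    intro h; rw [h] at e0
    rcases mul_eq_zero.1 (by linarith : g 3 * x30 = 0) with h | h
    · exact h
    · exact absurd h h30.ne'
  have k30 : g 3 = 0 → g 0 = 0 := by
    intro h; rw [h] at e1
    rcases mul_eq_zero.1 (by linarith : g 0 * x01 = 0) with h | h
    · exact h
    · exact absurd h h01.ne'
  have hne : g 0 * g 1 * g 2 * g 3 ≠ 0 := by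
    intro h
    have h0 : g 0 = 0 := by
      rcases mul_eq_zero.1 h with h | h
      · rcases mul_eq_zero.1 h with h | h
        · rcases mul_eq_zero.1 h with h | h
          · exact h
          · exact k30 (k23 (k12 h))
        · exact k30 (k23 h)
      · exact k30 h
    obtain ⟨p, hp⟩ := hg
    apply hp
    fin_cases p
    · exact h0
    · exact k01 h0
    · exact k12 (k01 h0)
    · exact k23 (k12 (k01 h0))
  have h20' : g 2 * x20 = - (g 3 * x30) := by linarith
  have h31' : g 3 * x31 = - (g 0 * x01) := by linarith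
  have h02' : g 0 * x02 = - (g 1 * x12) := by linarith
  have h13' : g 1 * x13 = - (g 2 * x23) := by linarith
  have hprod : (g 0 * g 1 * g 2 * g 3) * (x01 * x12 * x23 * x30 - x02 * x13 * x20 * x31) = 0 := by
    have : (g 0 * x02) * (g 1 * x13) * (g 2 * x20) * (g 3 * x31) =
        (g 0 * x01) * (g 1 * x12) * (g 2 * x23) * (g 3 * x30) := by
      rw [h20', h31', h02', h13']; ring
    linear_combination -this
  rcases mul_eq_zero.1 hprod with h | h
  · exact absurd h hne
  · linarith

end Pool.Agent.Lib.MP_fd5214_co
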