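import Mathlib
import Pool.Agent.Lib.MP_fd5214_co.Data

/-!
# Kernel-checked combinatorial certificates
-/

namespace Pool.Agent.Lib.MP_fd5214_co

def rowOf (l : List ℕ) (i : ℕ) : Fin 20 := ⟨l.getD i 0 % 20, Nat.mod_lt _ (by norm_num)⟩
def colOf (l : List ℕ) (i : ℕ) : Fin 28 := ⟨l.getD i 0 % 28, Nat.mod_lt _ (by norm_num)⟩

/-- The zero pattern needed for `block_kernel`. -/
def okPattern (r c : List ℕ) (s k : ℕ) : Bool :=
  (List.range 10).all fun i => (List.range 10).all fun j =>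
    (!(Nat.blt i j) || (Nat.ble s i && Nat.blt j (s + k)) || !(B (rowOf r i) (colOf c j))) &&
    (!(Nat.beq i j) || (Nat.ble s i && Nat.blt i (s + k)) || B (rowOf r i) (colOf c i))

/-- The square pattern inside the block. -/
def okSquare (r c : List ℕ) (s : ℕ) : Bool :=
  (List.range 4).all fun p => (List.range 4).all fun q =>
    (B (rowOf r (s + p)) (colOf c (s + q))) ==
      ((Nat.beq q (p + 1) || Nat.beq q (p + 2)) || (Nat.beq (q + 3) p || Nat.beq (q + 2) p))

def okExp (t : Fin 20 → Fin 28 → ℕ) (r c : List ℕ) (s : ℕ) : Bool :=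
  Nat.beq (t (rowOf r s) (colOf c (s + 1)) + t (rowOf r (s + 1)) (colOf c (s + 2)) +
      t (rowOf r (s + 2)) (colOf c (s + 3)) + t (rowOf r (s + 3)) (colOf c s))
    (t (rowOf r s) (colOf c (s + 2)) + t (rowOf r (s + 1)) (colOf c (s + 3)) +
      t (rowOf r (s + 2)) (colOf c s) + t (rowOf r (s + 3)) (colOf c (s + 1)))

def okRec (x : List ℕ × List ℕ × ℕ) : Bool :=
  Nat.ble (x.2.2 + 4) 10 && okPattern x.1 x.2.1 x.2.2 4 && okSquare x.1 x.2.1 x.2.2 &&
    okExp tA x.1 x.2.1 x.2.2 && okExp tB x.1 x.2.1 x.2.2 && okExp tC x.1 x.2.1 x.2.2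

theorem recs_ok : recs.all okRec = true := by decide +kernel

def idx (i : Fin 20) (j : Fin 28) : ℕ := 28 * (i : ℕ) + j

/-- All entries of the relation except the one at `(0, 1)` are in the mask. -/
def okStep (mask : ℕ) (x : List ℕ × List ℕ × ℕ) : Bool :=
  mask.testBit (idx (rowOf x.1 (x.2.2 + 1)) (colOf x.2.1 (x.2.2 + 2))) &&
  mask.testBit (idx (rowOf x.1 (x.2.2 + 2)) (colOf x.2.1 (x.2.2 + 3))) &&
  mask.testBit (idx (rowOf x.1 (x.2.2 + 3)) (colOf x.2.1 x.2.2)) &&
  mask.testBit (idx (rowOf x.1 x.2.2) (colOf x.2.1 (x.2.2 + 2))) &&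
  mask.testBit (idx (rowOf x.1 (x.2.2 + 1)) (colOf x.2.1 (x.2.2 + 3))) &&
  mask.testBit (idx (rowOf x.1 (x.2.2 + 2)) (colOf x.2.1 x.2.2)) &&
  mask.testBit (idx (rowOf x.1 (x.2.2 + 3)) (colOf x.2.1 (x.2.2 + 1)))

def addBit (mask : ℕ) (i : Fin 20) (j : Fin 28) : ℕ := mask ||| 2 ^ idx i j

/-- Run through the list of relations; `none` if some step is not justified. -/
def run : List (List ℕ × List ℕ × ℕ) → ℕ → Option ℕ
  | [], mask => some mask
  | x :: l, mask =>
    if okStep mask x then run l (addBit mask (rowOf x.1 x.2.2) (colOf x.2.1 (x.2.2 + 1))) else none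

def startMask : ℕ :=
  ([param0, param1, param2] ++ treeL).foldr (fun e mask => addBit mask e.1 e.2) 0

def fullMask : ℕ := ((run recs startMask).getD 0)

theorem run_ok : (run recs startMask).isSome = true := by decide +kernel

theorem full_ok : ∀ i j, B i j = true → fullMask.testBit (idx i j) = true := by decide +kernel

/-- Leaf-by-leaf structure of a forest. -/
def goodTree : List (Fin 20 × Fin 28) → Bool
  | [] => true
  | e :: l => goodTree l && (l.all (fun f => !(f.1 == e.1)) || l.all (fun f => !(f.2 == e.2)))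

theorem goodTree_ok : goodTree treeL = true := by decide +kernel

theorem tree_exp : ∀ e ∈ treeL, tA e.1 e.2 = 1 ∧ tB e.1 e.2 = 1 ∧ tC e.1 e.2 = 1 := by
  decide +kernel

theorem param_exp :
    (tA param0.1 param0.2 = 2 ∧ tB param0.1 param0.2 = 1 ∧ tC param0.1 param0.2 = 1) ∧
    (tA param1.1 param1.2 = 1 ∧ tB param1.1 param1.2 = 2 ∧ tC param1.1 param1.2 = 1) ∧
    (tA param2.1 param2.2 = 1 ∧ tB param2.1 param2.2 = 1 ∧ tC param2.1 param2.2 = 2) := by
  decide +kernel

theorem cubeA_ok : okPattern cubeA.1 cubeA.2.1 cubeA.2.2 5 = true := by decide +kernel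
theorem cubeB_ok : okPattern cubeB.1 cubeB.2.1 cubeB.2.2 5 = true := by decide +kernel

/-! ### Factorizations -/

def gA0 (k : Fin 9) (j : Fin 28) : ℤ := (GA0.getD k []).getD j 0
def gA1 (k : Fin 9) (j : Fin 28) : ℤ := (GA1.getD k []).getD j 0
def gB0 (k : Fin 9) (j : Fin 28) : ℤ := (GB0.getD k []).getD j 0
def gB1 (k : Fin 9) (j : Fin 28) : ℤ := (GB1.getD k []).getD j 0

/-- Constant part and linear part of the normalized slack matrix of a family. -/
def part0 (T : Fin 20 → Fin 28 → Bool) (i : Fin 20) (j : Fin 28) : ℤ :=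
  if B i j && !(T i j) then 1 else 0
def part1 (T : Fin 20 → Fin 28 → Bool) (i : Fin 20) (j : Fin 28) : ℤ :=
  if B i j && T i j then 1 else 0

def col (c : List (Fin 28)) (k : Fin 9) : Fin 28 := c.getD k 0

def sum9 (f : Fin 9 → ℤ) : ℤ := f 0 + f 1 + f 2 + f 3 + f 4 + f 5 + f 6 + f 7 + f 8

def okFactor (T : Fin 20 → Fin 28 → Bool) (c : List (Fin 28)) (g0 g1 : Fin 9 → Fin 28 → ℤ)
    (i : Fin 20) (j : Fin 28) : Prop :=
  sum9 (fun k => part0 T i (col c k) * g0 k j) = part0 T i j ∧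
  sum9 (fun k => part0 T i (col c k) * g1 k j + part1 T i (col c k) * g0 k j) = part1 T i j ∧
  sum9 (fun k => part1 T i (col c k) * g1 k j) = 0

instance (T : Fin 20 → Fin 28 → Bool) (c : List (Fin 28)) (g0 g1 : Fin 9 → Fin 28 → ℤ)
    (i : Fin 20) (j : Fin 28) : Decidable (okFactor T c g0 g1 i j) := by
  unfold okFactor; infer_instance

theorem factorA_ok : ∀ i j, okFactor TA coreA gA0 gA1 i j := by decide +kernel
theorem factorB_ok : ∀ i j, okFactor TB coreB gB0 gB1 i j := by decide +kernel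

theorem potA_ok : ∀ i j, B i j = true →
    (tC i j : ℤ) - 1 + potAr.getD i 0 + potAc.getD j 0 = if TA i j then 1 else 0 := by
  decide +kernel
theorem potB_ok : ∀ i j, B i j = true →
    (tA i j : ℤ) - 1 + ((tB i j : ℤ) - 1) + potBr.getD i 0 + potBc.getD j 0 =
      if TB i j then 1 else 0 := by
  decide +kernel

end Pool.Agent.Lib.MP_fd5214_co
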