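import Mathlib
import Pool.Agent.Lib.MP_fd5214_co.Block
import Pool.Agent.Lib.MP_fd5214_co.Check

/-!
# Normal form of the slack matrix
-/

namespace Pool.Agent.Lib.MP_fd5214_co

open Matrix

/-- A positive real filling of the zero pattern `B` of rank at most `9`. -/
structure Filling (X : Fin 20 → Fin 28 → ℝ) : Prop where
  factor : ∃ (A : Fin 20 → Fin 9 → ℝ) (C : Fin 28 → Fin 9 → ℝ), ∀ i j, X i j = A i ⬝ᵥ C j
  zero : ∀ i j, B i j = false → X i j = 0
  pos : ∀ i j, B i j = true → 0 < X i j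

theorem blt_iff (x y : ℕ) : Nat.blt x y = true ↔ x < y := by rw [Nat.blt_eq]

theorem okPattern_spec {r c : List ℕ} {s k : ℕ} (h : okPattern r c s k = true) :
    (∀ i < 10, ∀ j < 10, i < j → ¬ (s ≤ i ∧ j < s + k) → B (rowOf r i) (colOf c j) = false) ∧
    (∀ i < 10, ¬ (s ≤ i ∧ i < s + k) → B (rowOf r i) (colOf c i) = true) := by
  unfold okPattern at h
  rw [List.all_eq_true] at h
  constructor
  · intro i hi j hj hij hb
    have h1 := h i (List.mem_range.2 hi)
    rw [List.all_eq_true] at h1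
    have h2 := h1 j (List.mem_range.2 hj)
    rw [Bool.and_eq_true] at h2
    have h3 := h2.1
    simp only [Bool.or_eq_true, Bool.not_eq_true', Bool.and_eq_true] at h3
    rcases h3 with (h3 | h3) | h3
    · have : Nat.blt i j = true := (blt_iff i j).2 hij
      rw [this] at h3; exact absurd h3 (by simp)
    · exact absurd ⟨Nat.le_of_ble_eq_true h3.1, (blt_iff _ _).1 h3.2⟩ hb
    · exact h3
  · intro i hi hb
    have h1 := h i (List.mem_range.2 hi)
    rw [List.all_eq_true] at h1
    have h2 := h1 i (List.mem_range.2 hi)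
    rw [Bool.and_eq_true] at h2
    have h3 := h2.2
    simp only [Bool.or_eq_true, Bool.not_eq_true', Bool.and_eq_true] at h3
    rcases h3 with (h3 | h3) | h3
    · have : Nat.beq i i = true := Nat.beq_refl i
      rw [this] at h3; exact absurd h3 (by simp)
    · exact absurd ⟨Nat.le_of_ble_eq_true h3.1, (blt_iff _ _).1 h3.2⟩ hb
    · exact h3

/-- The kernel vector of a block. -/
theorem Filling.kernel {X : Fin 20 → Fin 28 → ℝ} (hX : Filling X) {r c : List ℕ} {s k : ℕ}
    (h : okPattern r c s k = true) (hsk : s + k ≤ 10) :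
    ∃ g : Fin k → ℝ, (∃ p, g p ≠ 0) ∧ ∀ q : Fin k,
      ∑ p : Fin k, g p * X (rowOf r (s + p)) (colOf c (s + q)) = 0 := by
  obtain ⟨A, C, hAC⟩ := hX.factor
  obtain ⟨h1, h2⟩ := okPattern_spec h
  exact block_kernel A C hAC (fun i : Fin 10 => rowOf r i) (fun i : Fin 10 => colOf c i) s k hsk
    (fun i j hij hb => hX.zero _ _ (h1 i i.2 j j.2 hij hb))
    (fun i hb => (hX.pos _ _ (h2 i i.2 hb)).ne')

theorem okSquare_spec {r c : List ℕ} {s : ℕ} (h : okSquare r c s = true) (p q : ℕ) (hp : p < 4)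
    (hq : q < 4) : B (rowOf r (s + p)) (colOf c (s + q)) =
      ((Nat.beq q (p + 1) || Nat.beq q (p + 2)) || (Nat.beq (q + 3) p || Nat.beq (q + 2) p)) := by
  unfold okSquare at h
  rw [List.all_eq_true] at h
  have h1 := h p (List.mem_range.2 hp)
  rw [List.all_eq_true] at h1
  have h2 := h1 q (List.mem_range.2 hq)
  simpa using h2

/-- The multiplicative relation of a square record. -/
theorem Filling.square {X : Fin 20 → Fin 28 → ℝ} (hX : Filling X) {r c : List ℕ} {s : ℕ}
    (h : okPattern r c s 4 = true) (hs : okSquare r c s = true) (hsk : s + 4 ≤ 10) :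
    X (rowOf r s) (colOf c (s + 1)) * X (rowOf r (s + 1)) (colOf c (s + 2)) *
      X (rowOf r (s + 2)) (colOf c (s + 3)) * X (rowOf r (s + 3)) (colOf c s) =
    X (rowOf r s) (colOf c (s + 2)) * X (rowOf r (s + 1)) (colOf c (s + 3)) *
      X (rowOf r (s + 2)) (colOf c s) * X (rowOf r (s + 3)) (colOf c (s + 1)) := by
  obtain ⟨g, hg, hgq⟩ := hX.kernel h hsk
  have hz : ∀ p q : ℕ, p < 4 → q < 4 → ((Nat.beq q (p + 1) || Nat.beq q (p + 2)) ||
      (Nat.beq (q + 3) p || Nat.beq (q + 2) p)) = false →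
      X (rowOf r (s + p)) (colOf c (s + q)) = 0 := fun p q hp hq h0 =>
    hX.zero _ _ ((okSquare_spec hs p q hp hq).trans h0)
  have hp : ∀ p q : ℕ, p < 4 → q < 4 → ((Nat.beq q (p + 1) || Nat.beq q (p + 2)) ||
      (Nat.beq (q + 3) p || Nat.beq (q + 2) p)) = true →
      0 < X (rowOf r (s + p)) (colOf c (s + q)) := fun p q hp hq h0 =>
    hX.pos _ _ ((okSquare_spec hs p q hp hq).trans h0)
  have e0 := hgq 0
  have e1 := hgq 1
  have e2 := hgq 2
  have e3 := hgq 3
  simp only [Fin.sum_univ_four, Fin.isValue, Fin.val_zero, Fin.val_one, Fin.val_two,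
    add_zero, show ((3 : Fin 4) : ℕ) = 3 from rfl] at e0 e1 e2 e3
  have z00 := hz 0 0 (by norm_num) (by norm_num) rfl
  have z10 := hz 1 0 (by norm_num) (by norm_num) rfl
  have z11 := hz 1 1 (by norm_num) (by norm_num) rfl
  have z21 := hz 2 1 (by norm_num) (by norm_num) rfl
  have z22 := hz 2 2 (by norm_num) (by norm_num) rfl
  have z32 := hz 3 2 (by norm_num) (by norm_num) rfl
  have z33 := hz 3 3 (by norm_num) (by norm_num) rfl
  have z03 := hz 0 3 (by norm_num) (by norm_num) rfl
  have p01 := hp 0 1 (by norm_num) (by norm_num) rfl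
  have p12 := hp 1 2 (by norm_num) (by norm_num) rfl
  have p23 := hp 2 3 (by norm_num) (by norm_num) rfl
  have p30 := hp 3 0 (by norm_num) (by norm_num) rfl
  simp only [add_zero] at z00 z10 z11 z21 z22 z32 z33 z03 p01 p12 p23 p30
  rw [z00, z10] at e0
  rw [z11, z21] at e1
  rw [z22, z32] at e2
  rw [z33, z03] at e3
  exact square_relation p01 p12 p23 p30 hg (by linarith) (by linarith) (by linarith)
    (by linarith)

/-! ### The chain of relations -/

theorem idx_inj {i i' : Fin 20} {j j' : Fin 28} (h : idx i j = idx i' j') : i = i' ∧ j = j' := by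
  unfold idx at h
  have := i.2; have := i'.2; have := j.2; have := j'.2
  exact ⟨Fin.ext (by omega), Fin.ext (by omega)⟩

/-- `D` vanishes on the entries of the mask. -/
def Vanish (D : Fin 20 → Fin 28 → ℝ) (mask : ℕ) : Prop :=
  ∀ i j, mask.testBit (idx i j) = true → D i j = 0

theorem Vanish.addBit {D : Fin 20 → Fin 28 → ℝ} {mask : ℕ} (h : Vanish D mask) {i : Fin 20}
    {j : Fin 28} (h0 : D i j = 0) : Vanish D (addBit mask i j) := by
  intro i' j' h1
  unfold Pool.Agent.Lib.MP_fd5214_co.addBit at h1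
  rw [Nat.testBit_or, Bool.or_eq_true, Nat.testBit_two_pow] at h1
  rcases h1 with h1 | h1
  · exact h i' j' h1
  · obtain ⟨rfl, rfl⟩ := idx_inj (of_decide_eq_true h1)
    exact h0

theorem run_sound {D : Fin 20 → Fin 28 → ℝ}
    (l : List (List ℕ × List ℕ × ℕ))
    (hrel : ∀ x ∈ l,
      D (rowOf x.1 x.2.2) (colOf x.2.1 (x.2.2 + 1)) +
        D (rowOf x.1 (x.2.2 + 1)) (colOf x.2.1 (x.2.2 + 2)) +
        D (rowOf x.1 (x.2.2 + 2)) (colOf x.2.1 (x.2.2 + 3)) +
        D (rowOf x.1 (x.2.2 + 3)) (colOf x.2.1 x.2.2) =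
      D (rowOf x.1 x.2.2) (colOf x.2.1 (x.2.2 + 2)) +
        D (rowOf x.1 (x.2.2 + 1)) (colOf x.2.1 (x.2.2 + 3)) +
        D (rowOf x.1 (x.2.2 + 2)) (colOf x.2.1 x.2.2) +
        D (rowOf x.1 (x.2.2 + 3)) (colOf x.2.1 (x.2.2 + 1)))
    (mask mask' : ℕ) (h : Vanish D mask) (hrun : run l mask = some mask') : Vanish D mask' := by
  induction l generalizing mask with
  | nil =>
    simp only [run, Option.some.injEq] at hrun
    rw [← hrun]; exact h
  | cons x l ih =>
    unfold run at hrun
    split_ifs at hrun with hs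
    refine ih (fun y hy => hrel y (List.mem_cons_of_mem _ hy)) _ (h.addBit ?_) hrun
    have hx := hrel x List.mem_cons_self
    unfold okStep at hs
    simp only [Bool.and_eq_true] at hs
    obtain ⟨⟨⟨⟨⟨⟨h1, h2⟩, h3⟩, h4⟩, h5⟩, h6⟩, h7⟩ := hs
    rw [h _ _ h1, h _ _ h2, h _ _ h3, h _ _ h4, h _ _ h5, h _ _ h6, h _ _ h7] at hx
    linarith

theorem forest_potential (f : Fin 20 → Fin 28 → ℝ) (l : List (Fin 20 × Fin 28))
    (h : goodTree l = true) :
    ∃ (ρ : Fin 20 → ℝ) (γ : Fin 28 → ℝ), ∀ e ∈ l, f e.1 e.2 = ρ e.1 + γ e.2 := by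
  induction l with
  | nil => exact ⟨0, 0, by simp⟩
  | cons e l ih =>
    unfold goodTree at h
    rw [Bool.and_eq_true, Bool.or_eq_true] at h
    obtain ⟨ρ, γ, hργ⟩ := ih h.1
    rcases h.2 with h2 | h2
    · refine ⟨Function.update ρ e.1 (f e.1 e.2 - γ e.2), γ, ?_⟩
      intro a ha
      rcases List.mem_cons.1 ha with rfl | ha
      · simp
      · have h3 := List.all_eq_true.1 h2 a ha
        have h4 : a.1 ≠ e.1 := by simpa using h3
        rw [Function.update_of_ne h4, hργ a ha]
    · refine ⟨ρ, Function.update γ e.2 (f e.1 e.2 - ρ e.1), ?_⟩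
      intro a ha
      rcases List.mem_cons.1 ha with rfl | ha
      · simp
      · have h3 := List.all_eq_true.1 h2 a ha
        have h4 : a.2 ≠ e.2 := by simpa using h3
        rw [Function.update_of_ne h4, hργ a ha]

/-- The toric normal form. -/
theorem Filling.toric {X : Fin 20 → Fin 28 → ℝ} (hX : Filling X) :
    ∃ (ρ : Fin 20 → ℝ) (γ : Fin 28 → ℝ) (α β ω : ℝ), ∀ i j, B i j = true →
      Real.log (X i j) = ρ i + γ j + ((tA i j : ℝ) - 1) * α + ((tB i j : ℝ) - 1) * β +
        ((tC i j : ℝ) - 1) * ω := by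
  obtain ⟨ρ, γ, hργ⟩ := forest_potential (fun i j => Real.log (X i j)) treeL goodTree_ok
  let e : Fin 20 × Fin 28 → ℝ := fun e => Real.log (X e.1 e.2) - ρ e.1 - γ e.2
  refine ⟨ρ, γ, e param0, e param1, e param2, ?_⟩
  let D : Fin 20 → Fin 28 → ℝ := fun i j => Real.log (X i j) - (ρ i + γ j +
    ((tA i j : ℝ) - 1) * e param0 + ((tB i j : ℝ) - 1) * e param1 +
        ((tC i j : ℝ) - 1) * e param2)
  have hstart : Vanish D startMask := by
    have htree : ∀ l : List (Fin 20 × Fin 28), (∀ a ∈ l, D a.1 a.2 = 0) →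
        Vanish D (l.foldr (fun e mask => Pool.Agent.Lib.MP_fd5214_co.addBit mask e.1 e.2) 0) := by
      intro l
      induction l with
      | nil => intro _ i j h; simp at h
      | cons a l ih =>
        intro h
        exact (ih (fun b hb => h b (List.mem_cons_of_mem _ hb))).addBit (h a List.mem_cons_self)
    apply htree
    intro a ha
    obtain ⟨⟨p00, p01, p02⟩, ⟨p10, p11, p12⟩, ⟨p20, p21, p22⟩⟩ := param_exp
    rw [List.mem_append] at ha
    rcases ha with ha | ha
    · simp only [List.mem_cons, List.not_mem_nil, or_false] at ha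
      rcases ha with rfl | rfl | rfl
      · simp only [D, e, p00, p01, p02]; push_cast; ring
      · simp only [D, e, p10, p11, p12]; push_cast; ring
      · simp only [D, e, p20, p21, p22]; push_cast; ring
    · obtain ⟨h1, h2, h3⟩ := tree_exp a ha
      have h4 := hργ a ha
      simp only [D, h1, h2, h3] at h4 ⊢
      rw [h4]; push_cast; ring
  have hfull : Vanish D fullMask := by
    have h1 : run recs startMask = some fullMask := by
      have := run_ok
      unfold fullMask
      cases h : run recs startMask with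
      | none => rw [h] at this; exact absurd this (by simp)
      | some m => rfl
    refine run_sound recs ?_ startMask fullMask hstart h1
    intro x hx
    have hok := List.all_eq_true.1 recs_ok x hx
    unfold okRec at hok
    simp only [Bool.and_eq_true] at hok
    obtain ⟨⟨⟨⟨⟨hs, hpat⟩, hsq⟩, hA⟩, hB⟩, hC⟩ := hok
    have hs' : x.2.2 + 4 ≤ 10 := Nat.le_of_ble_eq_true hs
    have hmul := hX.square hpat hsq hs'
    have hp : ∀ p q : ℕ, p < 4 → q < 4 → ((Nat.beq q (p + 1) || Nat.beq q (p + 2)) ||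
        (Nat.beq (q + 3) p || Nat.beq (q + 2) p)) = true →
        X (rowOf x.1 (x.2.2 + p)) (colOf x.2.1 (x.2.2 + q)) ≠ 0 := fun p q hp hq h0 =>
      (hX.pos _ _ ((okSquare_spec hsq p q hp hq).trans h0)).ne'
    have n01 := hp 0 1 (by norm_num) (by norm_num) rfl
    have n12 := hp 1 2 (by norm_num) (by norm_num) rfl
    have n23 := hp 2 3 (by norm_num) (by norm_num) rfl
    have n30 := hp 3 0 (by norm_num) (by norm_num) rfl
    have n02 := hp 0 2 (by norm_num) (by norm_num) rfl
    have n13 := hp 1 3 (by norm_num) (by norm_num) rfl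
    have n20 := hp 2 0 (by norm_num) (by norm_num) rfl
    have n31 := hp 3 1 (by norm_num) (by norm_num) rfl
    simp only [add_zero] at n01 n12 n23 n30 n02 n13 n20 n31
    have hlog := congrArg Real.log hmul
    rw [Real.log_mul (mul_ne_zero (mul_ne_zero n01 n12) n23) n30,
      Real.log_mul (mul_ne_zero n01 n12) n23, Real.log_mul n01 n12,
      Real.log_mul (mul_ne_zero (mul_ne_zero n02 n13) n20) n31,
      Real.log_mul (mul_ne_zero n02 n13) n20, Real.log_mul n02 n13] at hlog
    unfold okExp at hA hB hC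
    have hA' := Nat.eq_of_beq_eq_true hA
    have hB' := Nat.eq_of_beq_eq_true hB
    have hC' := Nat.eq_of_beq_eq_true hC
    have hA'' := congrArg (Nat.cast : ℕ → ℝ) hA'
    have hB'' := congrArg (Nat.cast : ℕ → ℝ) hB'
    have hC'' := congrArg (Nat.cast : ℕ → ℝ) hC'
    push_cast at hA'' hB'' hC''
    simp only [D]
    linear_combination hlog - e param0 * hA'' - e param1 * hB'' - e param2 * hC''
  intro i j hij
  have h := hfull i j (full_ok i j hij)
  simp only [D] at h
  linarith

end Pool.Agent.Lib.MP_fd5214_co
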