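import Mathlib

/-!
# Definitions for MP_fd5214_co: polytopes, slack matrices, psd rank, slack ideals
-/

namespace Pool.Agent.Lib.MP_fd5214_co

open Matrix

/-- `a ⬝ x ≤ b` is a facet inequality of `K ⊆ ℝ^d`: it is valid on `K`, and the set of points of `K`
where it is an equality is nonempty and has affine dimension `d - 1`. -/
def IsFacetInequality {d : ℕ} (K : Set (Fin d → ℝ)) (a : Fin d → ℝ) (b : ℝ) : Prop :=
  (∀ x ∈ K, a ⬝ᵥ x ≤ b) ∧ {x ∈ K | a ⬝ᵥ x = b}.Nonempty ∧
    Module.finrank ℝ (vectorSpan ℝ {x ∈ K | a ⬝ᵥ x = b}) + 1 = d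

/-- A `d`-polytope (full-dimensional polytope in `ℝ^d`) with `n` vertices and `m` facets, together
with a labelling `vert` of its vertices and a list `normal j ⬝ x ≤ rhs j` of its facet
inequalities (one for each facet). -/
structure Polytope (d n m : ℕ) where
  /-- the polytope as a set -/
  body : Set (Fin d → ℝ)
  /-- the vertices -/
  vert : Fin n → Fin d → ℝ
  /-- the normals of the facet inequalities -/
  normal : Fin m → Fin d → ℝ
  /-- the right-hand sides of the facet inequalities -/
  rhs : Fin m → ℝ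
  body_eq_convexHull : body = convexHull ℝ (Set.range vert)
  full_dimensional : affineSpan ℝ body = ⊤
  vert_injective : Function.Injective vert
  vert_extreme : ∀ i, vert i ∈ body.extremePoints ℝ
  body_eq_inequalities : body = {x | ∀ j, normal j ⬝ᵥ x ≤ rhs j}
  facet : ∀ j, IsFacetInequality body (normal j) (rhs j)
  facet_injective : Function.Injective fun j => {x ∈ body | normal j ⬝ᵥ x = rhs j}

/-- The slack matrix `(S_P)_{ij} = β_j - a_j ⬝ v_i`. -/
def Polytope.slack {d n m : ℕ} (P : Polytope d n m) (i : Fin n) (j : Fin m) : ℝ :=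
  P.rhs j - P.normal j ⬝ᵥ P.vert i

/-- Combinatorial equivalence: bijections between the vertices and between the facets that
preserve the vertex-facet incidences. -/
def CombEquiv {d n m n' m' : ℕ} (P : Polytope d n m) (Q : Polytope d n' m') : Prop :=
  ∃ (σ : Fin n ≃ Fin n') (τ : Fin m ≃ Fin m'), ∀ i j, P.slack i j = 0 ↔ Q.slack (σ i) (τ j) = 0

/-- `K ⊆ ℝ^d` has a psd lift of size `k`: `K = π(S^k_+ ∩ L)` for an affine subspace `L` of the
symmetric `k × k` matrices and a linear map `π`. -/
def HasPsdLift {d : ℕ} (K : Set (Fin d → ℝ)) (k : ℕ) : Prop :=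
  ∃ (L : AffineSubspace ℝ (Matrix (Fin k) (Fin k) ℝ))
    (π : Matrix (Fin k) (Fin k) ℝ →ₗ[ℝ] (Fin d → ℝ)),
    (∀ Y ∈ L, Y.IsSymm) ∧ K = π '' {Y | Y.PosSemidef ∧ Y ∈ L}

/-- The psd rank: the least size of a psd lift. -/
noncomputable def psdRank {d : ℕ} (K : Set (Fin d → ℝ)) : ℕ := sInf {k | HasPsdLift K k}

/-- A `d`-polytope is psd-minimal if its psd rank is `d + 1`. -/
def PsdMinimal {d n m : ℕ} (P : Polytope d n m) : Prop := psdRank P.body = d + 1

/-- A `d`-polytope is combinatorially psd-minimal if every `d`-polytope combinatorially equivalent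
to it is psd-minimal. -/
def CombPsdMinimal {d n m : ℕ} (P : Polytope d n m) : Prop :=
  ∀ (n' m' : ℕ) (Q : Polytope d n' m'), CombEquiv P Q → PsdMinimal Q

/-- The index set of the variables of the symbolic slack matrix: the pairs vertex-facet with
nonzero slack. -/
abbrev Polytope.Var {d n m : ℕ} (P : Polytope d n m) : Type :=
  {p : Fin n × Fin m // P.slack p.1 p.2 ≠ 0}

open Classical in
/-- The symbolic slack matrix `S_P(x)`: the nonzero entries of the slack matrix are replaced by
distinct variables. -/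
noncomputable def Polytope.symbolicSlack {d n m : ℕ} (P : Polytope d n m) :
    Matrix (Fin n) (Fin m) (MvPolynomial P.Var ℝ) :=
  Matrix.of fun i j => if h : P.slack i j ≠ 0 then MvPolynomial.X ⟨(i, j), h⟩ else 0

/-- The ideal generated by the `k`-minors of a matrix. -/
def minorIdeal {R : Type*} [CommRing R] {n m : ℕ} (k : ℕ) (M : Matrix (Fin n) (Fin m) R) :
    Ideal R :=
  Ideal.span {p | ∃ (r : Fin k ↪o Fin n) (c : Fin k ↪o Fin m), p = (M.submatrix r c).det}

/-- The saturation `J : g^∞`. -/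
def saturation {R : Type*} [CommRing R] (J : Ideal R) (g : R) : Ideal R where
  carrier := {f | ∃ N : ℕ, g ^ N * f ∈ J}
  zero_mem' := ⟨0, by simp⟩
  add_mem' := by
    rintro a b ⟨N, hN⟩ ⟨M, hM⟩
    refine ⟨N + M, ?_⟩
    have : g ^ (N + M) * (a + b) = g ^ M * (g ^ N * a) + g ^ N * (g ^ M * b) := by ring
    rw [this]
    exact J.add_mem (J.mul_mem_left _ hN) (J.mul_mem_left _ hM)
  smul_mem' := by
    rintro c a ⟨N, hN⟩
    refine ⟨N, ?_⟩
    have : g ^ N * (c • a) = c * (g ^ N * a) := by rw [smul_eq_mul]; ring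
    rw [this]
    exact J.mul_mem_left _ hN

open Classical in
/-- The slack ideal `I_P`: the ideal of `(d+2)`-minors of the symbolic slack matrix, saturated by
the product of all variables. -/
noncomputable def Polytope.slackIdeal {d n m : ℕ} (P : Polytope d n m) :
    Ideal (MvPolynomial P.Var ℝ) :=
  saturation (minorIdeal (d + 2) P.symbolicSlack) (∏ p : P.Var, MvPolynomial.X p)

/-- A binomial: `± x^a ± x^b`. -/
def IsBinomial {σ : Type*} (f : MvPolynomial σ ℝ) : Prop :=
  ∃ (a b : σ →₀ ℕ) (s t : ℝ), (s = 1 ∨ s = -1) ∧ (t = 1 ∨ t = -1) ∧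
    f = MvPolynomial.monomial a s + MvPolynomial.monomial b t

/-- An ideal is binomial if it is generated by binomials. -/
def IsBinomialIdeal {σ : Type*} (I : Ideal (MvPolynomial σ ℝ)) : Prop :=
  ∃ T : Set (MvPolynomial σ ℝ), (∀ f ∈ T, IsBinomial f) ∧ Ideal.span T = I

end Pool.Agent.Lib.MP_fd5214_co
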