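import Mathlib
import Pool.Agent.Lib.MP_fd5214_co.Chain

/-!
# The two families and the Hadamard square root
-/

namespace Pool.Agent.Lib.MP_fd5214_co

open Matrix Real

theorem factor_family {T : Fin 20 → Fin 28 → Bool} {c : List (Fin 28)}
    {g0 g1 : Fin 9 → Fin 28 → ℤ} (hok : ∀ i j, okFactor T c g0 g1 i j)
    {X : Fin 20 → Fin 28 → ℝ} (hzero : ∀ i j, B i j = false → X i j = 0)
    (R : Fin 20 → ℝ) (S : Fin 28 → ℝ) (τ : ℝ)
    (hval : ∀ i j, B i j = true →
      X i j = exp (R i) * exp (S j) * (if T i j = true then exp τ else 1)) :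
    ∃ (A : Fin 20 → Fin 9 → ℝ) (C : Fin 28 → Fin 9 → ℝ), ∀ i j, X i j = (A i ⬝ᵥ C j) ^ 2 := by
  let s : ℝ := exp (τ / 2)
  have hs : s ^ 2 = exp τ := by
    simp only [s]
    rw [← Real.exp_nat_mul]; congr 1; push_cast; ring
  refine ⟨fun i k => exp (R i / 2) * ((part0 T i (col c k) : ℝ) + (part1 T i (col c k) : ℝ) * s),
    fun j k => exp (S j / 2) * ((g0 k j : ℝ) + (g1 k j : ℝ) * s), fun i j => ?_⟩
  have hsum : (∑ k : Fin 9, ((part0 T i (col c k) : ℝ) + (part1 T i (col c k) : ℝ) * s) *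
      ((g0 k j : ℝ) + (g1 k j : ℝ) * s)) = (part0 T i j : ℝ) + (part1 T i j : ℝ) * s := by
    obtain ⟨h0, h1, h2⟩ := hok i j
    have h0' := congrArg (Int.cast : ℤ → ℝ) h0
    have h1' := congrArg (Int.cast : ℤ → ℝ) h1
    have h2' := congrArg (Int.cast : ℤ → ℝ) h2
    unfold sum9 at h0' h1' h2'
    push_cast at h0' h1' h2'
    have h9 : ∀ f : Fin 9 → ℝ, ∑ k, f k = f 0 + f 1 + f 2 + f 3 + f 4 + f 5 + f 6 + f 7 + f 8 := by
      intro f
      rw [Fin.sum_univ_castSucc, Fin.sum_univ_eight]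
      rfl
    rw [h9]
    linear_combination h0' + s * h1' + s ^ 2 * h2'
  have hdot : ((fun k => exp (R i / 2) * ((part0 T i (col c k) : ℝ) +
      (part1 T i (col c k) : ℝ) * s)) ⬝ᵥ fun k => exp (S j / 2) * ((g0 k j : ℝ) +
      (g1 k j : ℝ) * s)) = exp (R i / 2) * exp (S j / 2) *
        ((part0 T i j : ℝ) + (part1 T i j : ℝ) * s) := by
    rw [← hsum]
    simp only [dotProduct]
    rw [Finset.mul_sum]
    refine Finset.sum_congr rfl fun k _ => ?_
    ring
  rw [hdot]
  have hR : exp (R i / 2) ^ 2 = exp (R i) := by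
    rw [← Real.exp_nat_mul]; congr 1; push_cast; ring
  have hS : exp (S j / 2) ^ 2 = exp (S j) := by
    rw [← Real.exp_nat_mul]; congr 1; push_cast; ring
  cases hB : B i j with
  | false =>
    rw [hzero i j hB]
    simp [part0, part1, hB]
  | true =>
    rw [hval i j hB]
    cases hT : T i j with
    | false =>
      simp only [part0, part1, hB, hT, Bool.not_false, Bool.and_true, if_true, Bool.and_false,
        Bool.false_eq_true, if_false, Int.cast_one, Int.cast_zero, zero_mul, add_zero, mul_one]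
      rw [mul_pow, hR, hS]
    | true =>
      simp only [part0, part1, hB, hT, Bool.not_true, Bool.and_true, if_true, Bool.and_false,
        Bool.false_eq_true, if_false, Int.cast_one, Int.cast_zero, zero_add, one_mul]
      rw [mul_pow, mul_pow, hR, hS, hs]

/-- A filling has a Hadamard square root of rank at most `9`. -/
theorem Filling.sqrt_factor {X : Fin 20 → Fin 28 → ℝ} (hX : Filling X) :
    ∃ (A : Fin 20 → Fin 9 → ℝ) (C : Fin 28 → Fin 9 → ℝ), ∀ i j, X i j = (A i ⬝ᵥ C j) ^ 2 := by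
  obtain ⟨ρ, γ, α, β, ω, hlog⟩ := hX.toric
  have hX' : ∀ i j, B i j = true → X i j = exp (ρ i) * exp (γ j) *
      exp (((tA i j : ℝ) - 1) * α + ((tB i j : ℝ) - 1) * β + ((tC i j : ℝ) - 1) * ω) := by
    intro i j hij
    rw [← Real.exp_add, ← Real.exp_add, ← Real.exp_log (hX.pos i j hij), hlog i j hij]
    congr 1; ring
  have val : ∀ (i : Fin 20) (j : Fin 28) (a b c : ℕ), B i j = true → tA i j = a → tB i j = b →
      tC i j = c → X i j = exp (ρ i) * exp (γ j) *
      exp (((a : ℝ) - 1) * α + ((b : ℝ) - 1) * β + ((c : ℝ) - 1) * ω) := by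
    intro i j a b c h1 h2 h3 h4
    rw [hX' i j h1, h2, h3, h4]
  -- the first cube relation
  have hE : ∀ i, exp (ρ i) ≠ 0 := fun i => (exp_pos _).ne'
  have hK : ∀ j, exp (γ j) ≠ 0 := fun j => (exp_pos _).ne'
  set u := exp α with hu
  set v := exp β with hv
  set w := exp ω with hw
  have hu0 : 0 < u := exp_pos _
  have hv0 : 0 < v := exp_pos _
  have hw0 : 0 < w := exp_pos _
  have e111 : exp ((((1 : ℕ) : ℝ) - 1) * α + (((1 : ℕ) : ℝ) - 1) * β + (((1 : ℕ) : ℝ) - 1) * ω)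
      = 1 := by
    have : (((1 : ℕ) : ℝ) - 1) * α + (((1 : ℕ) : ℝ) - 1) * β + (((1 : ℕ) : ℝ) - 1) * ω = 0 := by
      push_cast; ring
    rw [this, exp_zero]
  have e211 : exp ((((2 : ℕ) : ℝ) - 1) * α + (((1 : ℕ) : ℝ) - 1) * β + (((1 : ℕ) : ℝ) - 1) * ω)
      = u := by
    rw [hu]; congr 1; push_cast; ring
  have e110 : exp ((((1 : ℕ) : ℝ) - 1) * α + (((1 : ℕ) : ℝ) - 1) * β + (((0 : ℕ) : ℝ) - 1) * ω)
      = w⁻¹ := by
    rw [hw, ← exp_neg]; congr 1; push_cast; ring
  have e120 : exp ((((1 : ℕ) : ℝ) - 1) * α + (((2 : ℕ) : ℝ) - 1) * β + (((0 : ℕ) : ℝ) - 1) * ω)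
      = v * w⁻¹ := by
    rw [hw, hv, ← exp_neg, ← exp_add]; congr 1; push_cast; ring
  have e212 : exp ((((2 : ℕ) : ℝ) - 1) * α + (((1 : ℕ) : ℝ) - 1) * β + (((2 : ℕ) : ℝ) - 1) * ω)
      = u * w := by
    rw [hw, hu, ← exp_add]; congr 1; push_cast; ring
  have e202 : exp ((((2 : ℕ) : ℝ) - 1) * α + (((0 : ℕ) : ℝ) - 1) * β + (((2 : ℕ) : ℝ) - 1) * ω)
      = u * v⁻¹ * w := by
    rw [hw, hu, hv, ← exp_neg, ← exp_add, ← exp_add]; congr 1; push_cast; ring
  have hA : 1 + u * w = v + w := by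
    obtain ⟨g, ⟨p, hp⟩, hg⟩ := hX.kernel cubeA_ok (by decide)
    have hr : ∀ p : Fin 5, rowOf cubeA.1 (cubeA.2.2 + p) = (![0, 2, 3, 6, 8] : Fin 5 → Fin 20) p :=
      by decide
    have hc : ∀ p : Fin 5, colOf cubeA.2.1 (cubeA.2.2 + p) =
      (![27, 9, 17, 12, 5] : Fin 5 → Fin 28) p := by decide
    simp only [hr, hc] at hg
    have e0 := hg 0
    have e1 := hg 1
    have e2 := hg 2
    have e3 := hg 3
    have e4 := hg 4
    simp only [Fin.sum_univ_five, Matrix.cons_val] at e0 e1 e2 e3 e4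
    rw [val 0 27 2 1 1 rfl rfl rfl rfl, val 2 27 1 1 0 rfl rfl rfl rfl,
      val 3 27 1 2 0 rfl rfl rfl rfl, val 6 27 1 1 1 rfl rfl rfl rfl, hX.zero 8 27 rfl, e211,
      e110, e120, e111] at e0
    rw [hX.zero 0 9 rfl, val 2 9 1 1 1 rfl rfl rfl rfl, hX.zero 3 9 rfl,
      val 6 9 1 1 1 rfl rfl rfl rfl, hX.zero 8 9 rfl, e111] at e1
    rw [val 0 17 1 1 1 rfl rfl rfl rfl, hX.zero 2 17 rfl, hX.zero 3 17 rfl,
      val 6 17 1 1 1 rfl rfl rfl rfl, hX.zero 8 17 rfl, e111] at e2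
    rw [hX.zero 0 12 rfl, val 2 12 1 1 1 rfl rfl rfl rfl, val 3 12 1 1 1 rfl rfl rfl rfl,
      hX.zero 6 12 rfl, val 8 12 1 1 1 rfl rfl rfl rfl, e111] at e3
    rw [hX.zero 0 5 rfl, hX.zero 2 5 rfl, hX.zero 3 5 rfl, hX.zero 6 5 rfl,
      val 8 5 1 1 1 rfl rfl rfl rfl, e111] at e4
    -- the scaled coefficients
    obtain ⟨μ, hμ⟩ : ∃ μ : Fin 5 → ℝ, ∀ p, μ p = g p * exp (ρ ((![0, 2, 3, 6, 8] :
      Fin 5 → Fin 20) p)) := ⟨_, fun _ => rfl⟩
    have m0 := hμ 0
    have m1 := hμ 1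
    have m2 := hμ 2
    have m3 := hμ 3
    have m4 := hμ 4
    simp only [Matrix.cons_val] at m0 m1 m2 m3 m4
    have f0 : u * μ 0 + w⁻¹ * μ 1 + (v * w⁻¹) * μ 2 + μ 3 = 0 := by
      apply mul_left_cancel₀ (hK 27)
      rw [m0, m1, m2, m3]
      linear_combination e0
    have f1 : μ 1 + μ 3 = 0 := by
      apply mul_left_cancel₀ (hK 9)
      rw [m1, m3]; linear_combination e1
    have f2 : μ 0 + μ 3 = 0 := by
      apply mul_left_cancel₀ (hK 17)
      rw [m0, m3]; linear_combination e2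
    have f3 : μ 1 + μ 2 + μ 4 = 0 := by
      apply mul_left_cancel₀ (hK 12)
      rw [m1, m2, m4]; linear_combination e3
    have f4 : μ 4 = 0 := by
      apply mul_left_cancel₀ (hK 5)
      rw [m4]; linear_combination e4
    have g3 : μ 3 = - μ 1 := by linarith
    have g0 : μ 0 = μ 1 := by linarith
    have g2 : μ 2 = - μ 1 := by linarith
    have hμp : μ p ≠ 0 := by rw [hμ]; exact mul_ne_zero hp (hE _)
    have h1 : μ 1 ≠ 0 := by
      intro h1
      apply hμp
      fin_cases p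
      · show μ 0 = 0; linarith
      · exact h1
      · show μ 2 = 0; linarith
      · show μ 3 = 0; linarith
      · exact f4
    rw [g0, g2, g3] at f0
    have : μ 1 * (1 + u * w - v - w) = 0 := by
      have hww : w⁻¹ * w = 1 := inv_mul_cancel₀ hw0.ne'
      linear_combination w * f0 - (μ 1 - v * μ 1) * hww
    rcases mul_eq_zero.1 this with h | h
    · exact absurd h h1
    · linarith
  have hB : v + u * v * w = u * v + u * w := by
    obtain ⟨g, ⟨p, hp⟩, hg⟩ := hX.kernel cubeB_ok (by decide)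
    have hr : ∀ p : Fin 5, rowOf cubeB.1 (cubeB.2.2 + p) =
      (![2, 4, 5, 8, 10] : Fin 5 → Fin 20) p := by decide
    have hc : ∀ p : Fin 5, colOf cubeB.2.1 (cubeB.2.2 + p) =
      (![8, 7, 9, 4, 5] : Fin 5 → Fin 28) p := by decide
    simp only [hr, hc] at hg
    have e0 := hg 0
    have e1 := hg 1
    have e2 := hg 2
    have e3 := hg 3
    have e4 := hg 4
    simp only [Fin.sum_univ_five, Matrix.cons_val] at e0 e1 e2 e3 e4
    rw [val 2 8 2 1 1 rfl rfl rfl rfl, val 4 8 2 1 1 rfl rfl rfl rfl,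
      val 5 8 1 1 1 rfl rfl rfl rfl, hX.zero 8 8 rfl, hX.zero 10 8 rfl, e211, e111] at e0
    rw [hX.zero 2 7 rfl, hX.zero 4 7 rfl, val 5 7 1 1 1 rfl rfl rfl rfl,
      hX.zero 8 7 rfl, val 10 7 2 1 1 rfl rfl rfl rfl, e111, e211] at e1
    rw [val 2 9 1 1 1 rfl rfl rfl rfl, hX.zero 4 9 rfl, hX.zero 5 9 rfl, hX.zero 8 9 rfl,
      hX.zero 10 9 rfl, e111] at e2
    rw [hX.zero 2 4 rfl, val 4 4 1 1 1 rfl rfl rfl rfl, val 5 4 1 1 1 rfl rfl rfl rfl,
      val 8 4 1 1 1 rfl rfl rfl rfl, val 10 4 2 1 2 rfl rfl rfl rfl, e111, e212] at e3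
    rw [hX.zero 2 5 rfl, hX.zero 4 5 rfl, hX.zero 5 5 rfl, val 8 5 1 1 1 rfl rfl rfl rfl,
      val 10 5 2 0 2 rfl rfl rfl rfl, e111, e202] at e4
    obtain ⟨μ, hμ⟩ : ∃ μ : Fin 5 → ℝ, ∀ p, μ p = g p * exp (ρ ((![2, 4, 5, 8, 10] :
      Fin 5 → Fin 20) p)) := ⟨_, fun _ => rfl⟩
    have m0 := hμ 0
    have m1 := hμ 1
    have m2 := hμ 2
    have m3 := hμ 3
    have m4 := hμ 4
    simp only [Matrix.cons_val] at m0 m1 m2 m3 m4
    have f0 : u * μ 0 + u * μ 1 + μ 2 = 0 := by
      apply mul_left_cancel₀ (hK 8)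
      rw [m0, m1, m2]; linear_combination e0
    have f1 : μ 2 + u * μ 4 = 0 := by
      apply mul_left_cancel₀ (hK 7)
      rw [m2, m4]; linear_combination e1
    have f2 : μ 0 = 0 := by
      apply mul_left_cancel₀ (hK 9)
      rw [m0]; linear_combination e2
    have f3 : μ 1 + μ 2 + μ 3 + u * w * μ 4 = 0 := by
      apply mul_left_cancel₀ (hK 4)
      rw [m1, m2, m3, m4]; linear_combination e3
    have f4 : μ 3 + u * v⁻¹ * w * μ 4 = 0 := by
      apply mul_left_cancel₀ (hK 5)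
      rw [m3, m4]; linear_combination e4
    have g2 : μ 2 = - (u * μ 1) := by rw [f2] at f0; linarith
    have g4 : μ 4 = μ 1 := by
      apply mul_left_cancel₀ hu0.ne'
      linarith
    have g3 : μ 3 = - (u * v⁻¹ * w * μ 1) := by rw [g4] at f4; linarith
    have hμp : μ p ≠ 0 := by rw [hμ]; exact mul_ne_zero hp (hE _)
    have h1 : μ 1 ≠ 0 := by
      intro h1
      apply hμp
      rw [h1, mul_zero, neg_zero] at g2
      rw [h1, mul_zero, neg_zero] at g3
      fin_cases p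
      · exact f2
      · exact h1
      · exact g2
      · exact g3
      · show μ 4 = 0; rw [g4, h1]
    rw [g2, g3, g4] at f3
    have hvv : v⁻¹ * v = 1 := inv_mul_cancel₀ hv0.ne'
    have : μ 1 * (v + u * v * w - u * v - u * w) = 0 := by
      linear_combination v * f3 + (u * w * μ 1) * hvv
    rcases mul_eq_zero.1 this with h | h
    · exact absurd h h1
    · linarith
  have huv : u = v := by
    have h1 : (v - u) * (1 + u * w) = 0 := by linear_combination hB - u * hA
    rcases mul_eq_zero.1 h1 with h | h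
    · linarith
    · nlinarith
  have hαβ : α = β := exp_injective huv
  have hcase : (1 - u) * (1 - w) = 0 := by rw [← huv] at hA; linear_combination hA
  rcases mul_eq_zero.1 hcase with h | h
  · -- family A
    have hα : α = 0 := by
      have : exp α = exp 0 := by rw [exp_zero, ← hu]; linarith
      exact exp_injective this
    refine factor_family factorA_ok hX.zero (fun i => ρ i - (potAr.getD i 0 : ℤ) * ω)
      (fun j => γ j - (potAc.getD j 0 : ℤ) * ω) ω ?_
    intro i j hij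
    rw [hX' i j hij, ← hαβ, hα]
    have h1 := congrArg (Int.cast : ℤ → ℝ) (potA_ok i j hij)
    push_cast at h1
    cases hT : TA i j with
    | false =>
      simp only [hT, Bool.false_eq_true, if_false, mul_one] at h1 ⊢
      rw [← exp_add, ← exp_add, ← exp_add]; congr 1
      linear_combination ω * h1
    | true =>
      simp only [hT, if_true] at h1 ⊢
      rw [← exp_add, ← exp_add, ← exp_add, ← exp_add]; congr 1
      linear_combination ω * h1
  · -- family B
    have hω : ω = 0 := by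
      have : exp ω = exp 0 := by rw [exp_zero, ← hw]; linarith
      exact exp_injective this
    refine factor_family factorB_ok hX.zero (fun i => ρ i - (potBr.getD i 0 : ℤ) * α)
      (fun j => γ j - (potBc.getD j 0 : ℤ) * α) α ?_
    intro i j hij
    rw [hX' i j hij, ← hαβ, hω]
    have h1 := congrArg (Int.cast : ℤ → ℝ) (potB_ok i j hij)
    push_cast at h1
    cases hT : TB i j with
    | false =>
      simp only [hT, Bool.false_eq_true, if_false, mul_one] at h1 ⊢
      rw [← exp_add, ← exp_add, ← exp_add]; congr 1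
      linear_combination α * h1
    | true =>
      simp only [hT, if_true] at h1 ⊢
      rw [← exp_add, ← exp_add, ← exp_add, ← exp_add]; congr 1
      linear_combination α * h1

end Pool.Agent.Lib.MP_fd5214_co
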