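import Mathlib

/-!
# Flags of the 8-dimensional example
-/

namespace Pool.Agent.Lib.MP_fd5214_co

/-- Vertices of a flag ending in each facet. -/
def flagR : List (List (Fin 20)) := [
  [1, 7, 15, 11, 13, 8, 9, 0, 19],
  [6, 17, 0, 4, 18, 2, 15, 13, 16],
  [5, 19, 6, 1, 9, 16, 2, 11, 14],
  [9, 19, 12, 2, 6, 13, 17, 5, 14],
  [6, 17, 13, 16, 1, 11, 2, 3, 19],
  [19, 1, 2, 16, 3, 5, 4, 18, 13],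
  [5, 10, 0, 3, 18, 16, 1, 15, 4],
  [14, 15, 7, 2, 11, 8, 17, 0, 5],
  [14, 8, 3, 10, 13, 0, 18, 16, 4],
  [19, 4, 10, 5, 0, 18, 3, 14, 2],
  [6, 17, 19, 15, 16, 14, 12, 2, 10],
  [10, 16, 0, 12, 7, 11, 6, 14, 8],
  [5, 1, 14, 10, 0, 16, 6, 19, 9],
  [14, 4, 12, 18, 17, 6, 19, 0, 15],
  [11, 12, 10, 8, 14, 0, 7, 17, 9],
  [2, 3, 13, 6, 17, 15, 16, 19, 0],
  [15, 13, 17, 18, 9, 11, 3, 19, 5],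
  [9, 8, 4, 2, 7, 19, 1, 15, 13],
  [8, 7, 5, 10, 9, 14, 18, 3, 17],
  [16, 19, 8, 3, 13, 5, 18, 7, 12],
  [15, 9, 13, 2, 11, 12, 1, 17, 5],
  [1, 7, 2, 4, 6, 19, 14, 9, 16],
  [15, 2, 6, 17, 12, 19, 9, 18, 7],
  [1, 7, 15, 17, 13, 10, 6, 18, 0],
  [9, 11, 2, 8, 15, 4, 18, 19, 3],
  [10, 13, 7, 17, 12, 11, 15, 9, 6],
  [10, 18, 12, 17, 7, 11, 19, 13, 14],
  [7, 19, 5, 18, 10, 8, 4, 12, 13]]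

/-- Facets of a flag ending in each facet. -/
def flagC : List (List (Fin 28)) := [
  [27, 5, 9, 18, 10, 20, 8, 16, 0],
  [7, 21, 22, 11, 10, 13, 3, 5, 1],
  [7, 6, 9, 3, 12, 21, 23, 15, 2],
  [11, 18, 17, 27, 24, 22, 2, 20, 3],
  [9, 2, 22, 1, 3, 6, 11, 20, 4],
  [1, 24, 23, 21, 20, 16, 15, 2, 5],
  [8, 5, 19, 12, 0, 1, 3, 9, 6],
  [3, 13, 1, 11, 17, 10, 0, 24, 7],
  [2, 12, 14, 7, 9, 18, 0, 1, 8],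
  [8, 15, 24, 14, 27, 12, 13, 3, 9],
  [17, 21, 4, 13, 22, 20, 5, 23, 10],
  [16, 0, 19, 9, 13, 12, 14, 2, 11],
  [20, 27, 2, 5, 18, 0, 9, 6, 12],
  [20, 6, 7, 0, 27, 14, 1, 22, 13],
  [17, 7, 20, 11, 3, 25, 1, 0, 14],
  [19, 10, 5, 16, 0, 3, 1, 4, 15],
  [14, 5, 0, 20, 8, 23, 25, 1, 16],
  [8, 23, 19, 27, 3, 0, 24, 2, 17],
  [15, 3, 16, 17, 9, 2, 0, 27, 18],
  [1, 6, 10, 26, 9, 16, 2, 3, 19],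
  [13, 7, 17, 25, 15, 16, 1, 0, 20],
  [13, 4, 11, 16, 7, 0, 2, 10, 21],
  [27, 25, 16, 21, 4, 1, 10, 20, 22],
  [3, 5, 19, 21, 7, 16, 8, 11, 23],
  [14, 19, 26, 20, 3, 16, 0, 1, 24],
  [16, 27, 6, 0, 8, 23, 26, 11, 25],
  [4, 12, 8, 27, 1, 23, 25, 14, 26],
  [22, 0, 14, 2, 17, 23, 19, 9, 27]]

end Pool.Agent.Lib.MP_fd5214_co
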