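import Mathlib
import Pool.Agent.Lib.MP_fd5214_co.Data
import Pool.Agent.Lib.MP_fd5214_co.HullData
import Pool.Agent.Lib.MP_fd5214_co.FlagData

/-!
# Kernel-checked certificate for the convex hull
-/

namespace Pool.Agent.Lib.MP_fd5214_co

def hI (j : Fin 28) (k : Fin 9) : ℤ := (hL.getD j []).getD k 0
def wI (i : Fin 20) (k : Fin 9) : ℤ := (wL.getD i []).getD k 0

theorem hw_ok : ∀ (i : Fin 20) (j : Fin 28), hI j 0 * wI i 0 + hI j 1 * wI i 1 + hI j 2 * wI i 2 +
    hI j 3 * wI i 3 + hI j 4 * wI i 4 + hI j 5 * wI i 5 + hI j 6 * wI i 6 + hI j 7 * wI i 7 +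
    hI j 8 * wI i 8 = if B i j then 1 else 0 := by decide +kernel

def colSum (J : ℕ) (k : Fin 9) : ℤ :=
  ((List.finRange 28).map fun (j : Fin 28) => bif J.testBit (j : ℕ) then hI j k else 0).sum

def okRule (r : ℕ × ℕ) : Bool := (List.finRange 9).all fun k => colSum r.1 k == colSum r.2 k

theorem rules_ok : rules.all okRule = true := by decide +kernel

def ruleStep (Z : ℕ) (r : ℕ × ℕ) : ℕ :=
  bif Nat.beq (Nat.land r.1 Z) r.1 then Nat.lor Z r.2 else Z

def pass (Z : ℕ) : ℕ := rules.foldl ruleStep Z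

def fullF : ℕ := 2 ^ 28 - 1

def memFaces (Z : ℕ) : Bool :=
  Nat.beq Z fullF || (faces.getD (Z % 17) []).any fun p => Nat.beq p.1 Z

def okTrans (Z : ℕ) : ℕ → ℕ → Bool
  | 0, P => Nat.blt Z P && Nat.blt P (2 ^ 28) && memFaces P
  | fuel + 1, P => (Nat.blt Z P && Nat.blt P (2 ^ 28) && memFaces P) || okTrans Z fuel (pass P)

def okFace (p : ℕ × ℕ) : Bool :=
  Nat.blt p.2 20 && Nat.beq (Nat.land p.1 (rowMask.getD p.2 0)) 0 &&
    (List.range 28).all fun j => !((rowMask.getD p.2 0).testBit j) ||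
      okTrans p.1 2 (pass (Nat.lor p.1 (2 ^ j)))

theorem faces_ok : faces.all (fun l => l.all okFace) = true := by decide +kernel

theorem mem_zero : memFaces 0 = true := by decide +kernel

def flagRow (j : Fin 28) (l : Fin 9) : Fin 20 := (flagR.getD j []).getD l 0
def flagCol (j : Fin 28) (k : Fin 9) : Fin 28 := (flagC.getD j []).getD k 0

theorem flag_zero : ∀ (j : Fin 28) (l k : Fin 9), l < k → B (flagRow j l) (flagCol j k) = false := by
  decide +kernel
theorem flag_diag : ∀ (j : Fin 28) (k : Fin 9), B (flagRow j k) (flagCol j k) = true := by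
  decide +kernel
theorem flag_last : ∀ j : Fin 28, flagCol j 8 = j := by decide +kernel

theorem B_nonempty : ∀ i : Fin 20, ∃ j, B i j = true := by decide +kernel
theorem B_col_inj : ∀ j j' : Fin 28, (∀ i, B i j = B i j') → j = j' := by decide +kernel
theorem w_inj : ∀ i i' : Fin 20, (∀ k : Fin 8, wI i k.succ = wI i' k.succ) → i = i' := by
  decide +kernel
theorem w_bool : ∀ (i : Fin 20) (k : Fin 9), wI i k = 0 ∨ wI i k = 1 := by decide +kernel
theorem w_zero : ∀ i : Fin 20, wI i 0 = 1 := by decide +kernel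

end Pool.Agent.Lib.MP_fd5214_co
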