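import Mathlib
import Pool.Agent.Lib.MP_fd5214_co.Defs
import Pool.Agent.Lib.MP_fd5214_co.HullCheck

/-!
# The 8-dimensional example: convex hull equals the inequality description
-/

namespace Pool.Agent.Lib.MP_fd5214_co

open Matrix

theorem sum9R {f : Fin 9 → ℝ} :
    ∑ k, f k = f 0 + f 1 + f 2 + f 3 + f 4 + f 5 + f 6 + f 7 + f 8 := by
  rw [Fin.sum_univ_castSucc, Fin.sum_univ_eight]
  rfl

/-- The facet functionals on homogeneous coordinates. -/
noncomputable def hf (y : Fin 9 → ℝ) (j : Fin 28) : ℝ := ∑ k, (hI j k : ℝ) * y k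

/-- Homogenized vertices. -/
def wR (i : Fin 20) (k : Fin 9) : ℝ := (wI i k : ℝ)

theorem hf_wR (i : Fin 20) (j : Fin 28) : hf (wR i) j = if B i j then 1 else 0 := by
  have h := congrArg (Int.cast : ℤ → ℝ) (hw_ok i j)
  unfold hf wR
  rw [sum9R]
  push_cast at h
  rw [h]

theorem hf_sub (y z : Fin 9 → ℝ) (t : ℝ) (j : Fin 28) :
    hf (y - t • z) j = hf y j - t * hf z j := by
  unfold hf
  rw [Finset.mul_sum, ← Finset.sum_sub_distrib]
  refine Finset.sum_congr rfl fun k _ => ?_
  simp only [Pi.sub_apply, Pi.smul_apply, smul_eq_mul]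
  ring

def InCone (y : Fin 9 → ℝ) : Prop := ∀ j, 0 ≤ hf y j

def Van (y : Fin 9 → ℝ) (Z : ℕ) : Prop := ∀ j : Fin 28, Z.testBit j = true → hf y j = 0

theorem colSum_cast (J : ℕ) (k : Fin 9) :
    (colSum J k : ℝ) = ∑ j : Fin 28, if J.testBit (j : ℕ) = true then (hI j k : ℝ) else 0 := by
  unfold colSum
  rw [← Fin.sum_univ_def, Int.cast_sum]
  refine Finset.sum_congr rfl fun j _ => ?_
  cases J.testBit (j : ℕ) <;> simp

theorem sum_mask (J : ℕ) (y : Fin 9 → ℝ) :
    (∑ j : Fin 28, if J.testBit (j : ℕ) = true then hf y j else 0) =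
      ∑ k, (colSum J k : ℝ) * y k := by
  simp only [colSum_cast, Finset.sum_mul]
  rw [Finset.sum_comm]
  refine Finset.sum_congr rfl fun j _ => ?_
  split_ifs
  · rfl
  · simp

theorem rule_sound {J K : ℕ} (h : okRule (J, K) = true) {y : Fin 9 → ℝ} (hy : InCone y)
    (hJ : Van y J) : Van y K := by
  have hk : ∀ k, colSum J k = colSum K k := by
    intro k
    unfold okRule at h
    rw [List.all_eq_true] at h
    have := h k (List.mem_finRange k)
    simpa using this
  have h1 := sum_mask J y
  have h2 := sum_mask K y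
  have h3 : (∑ j : Fin 28, if J.testBit (j : ℕ) = true then hf y j else 0) = 0 := by
    refine Finset.sum_eq_zero fun j _ => ?_
    split_ifs with hj
    · exact hJ j hj
    · rfl
  have h4 : (∑ j : Fin 28, if K.testBit (j : ℕ) = true then hf y j else 0) = 0 := by
    rw [h2, ← h3, h1]
    simp only [hk]
  rw [Finset.sum_eq_zero_iff_of_nonneg] at h4
  · intro j hj
    have := h4 j (Finset.mem_univ j)
    rwa [if_pos hj] at this
  · intro j _
    split_ifs
    · exact hy j
    · exact le_rfl

theorem Van.lor {y : Fin 9 → ℝ} {Z K : ℕ} (h : Van y Z) (h' : Van y K) :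
    Van y (Nat.lor Z K) := by
  intro j hj
  have : (Z ||| K).testBit (j : ℕ) = true := hj
  rw [Nat.testBit_or, Bool.or_eq_true] at this
  rcases this with h1 | h1
  · exact h j h1
  · exact h' j h1

theorem ruleStep_sound {r : ℕ × ℕ} (h : okRule r = true) {y : Fin 9 → ℝ} (hy : InCone y)
    {Z : ℕ} (hZ : Van y Z) : Van y (ruleStep Z r) := by
  unfold ruleStep
  cases hb : Nat.beq (Nat.land r.1 Z) r.1 with
  | false => exact hZ
  | true =>
    have h1 : r.1 &&& Z = r.1 := Nat.eq_of_beq_eq_true hb
    refine hZ.lor (rule_sound (J := r.1) (K := r.2) h hy ?_)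
    intro j hj
    rw [← h1, Nat.testBit_and, Bool.and_eq_true] at hj
    exact hZ j hj.2

theorem foldl_sound (l : List (ℕ × ℕ)) (hl : ∀ r ∈ l, okRule r = true) {y : Fin 9 → ℝ}
    (hy : InCone y) {Z : ℕ} (hZ : Van y Z) : Van y (l.foldl ruleStep Z) := by
  induction l generalizing Z with
  | nil => exact hZ
  | cons r l ih =>
    exact ih (fun s hs => hl s (List.mem_cons_of_mem _ hs))
      (ruleStep_sound (hl r List.mem_cons_self) hy hZ)

theorem pass_sound {y : Fin 9 → ℝ} (hy : InCone y) {Z : ℕ} (hZ : Van y Z) : Van y (pass Z) :=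
  foldl_sound rules (List.all_eq_true.1 rules_ok) hy hZ

theorem okTrans_sound {Z fuel : ℕ} {y : Fin 9 → ℝ} (hy : InCone y) {P : ℕ} (hP : Van y P)
    (h : okTrans Z fuel P = true) :
    ∃ P', Z < P' ∧ P' < 2 ^ 28 ∧ memFaces P' = true ∧ Van y P' := by
  induction fuel generalizing P with
  | zero =>
    unfold okTrans at h
    simp only [Bool.and_eq_true] at h
    exact ⟨P, by rw [← Nat.blt_eq]; exact h.1.1, by rw [← Nat.blt_eq]; exact h.1.2, h.2, hP⟩
  | succ fuel ih =>
    unfold okTrans at h
    rw [Bool.or_eq_true] at h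
    rcases h with h | h
    · simp only [Bool.and_eq_true] at h
      exact ⟨P, by rw [← Nat.blt_eq]; exact h.1.1, by rw [← Nat.blt_eq]; exact h.1.2, h.2, hP⟩
    · exact ih (pass_sound hy hP) h

theorem Van.full {y : Fin 9 → ℝ} (h : Van y fullF) : y = 0 := by
  have hall : ∀ j : Fin 28, hf y j = 0 := by
    intro j
    apply h
    unfold fullF
    rw [Nat.testBit_two_pow_sub_one]
    exact decide_eq_true j.2
  have h17 := hall 17
  have h13 := hall 13
  have h8 := hall 8
  have h19 := hall 19
  have h1 := hall 1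
  have h0 := hall 0
  have h4 := hall 4
  have h9 := hall 9
  have h2 := hall 2
  simp [hf, sum9R, hI, hL] at h17 h13 h8 h19 h1 h0 h4 h9 h2
  ext k
  fin_cases k
  · show y 0 = 0
    linarith
  · show y 1 = 0
    linarith
  · show y 2 = 0
    linarith
  · show y 3 = 0
    linarith
  · show y 4 = 0
    linarith
  · show y 5 = 0
    linarith
  · show y 6 = 0
    linarith
  · show y 7 = 0
    linarith
  · show y 8 = 0
    linarith

theorem cone_claim (N : ℕ) : ∀ Z : ℕ, 2 ^ 28 ≤ N + Z → Z < 2 ^ 28 → memFaces Z = true →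
    ∀ y : Fin 9 → ℝ, InCone y → Van y Z →
      ∃ c : Fin 20 → ℝ, (∀ i, 0 ≤ c i) ∧ y = ∑ i, c i • wR i := by
  induction N with
  | zero => intro Z h1 h2; omega
  | succ N ih =>
    intro Z hN hZ hm y hy hv
    unfold memFaces at hm
    rw [Bool.or_eq_true] at hm
    rcases hm with hm | hm
    · have hZF : Z = fullF := Nat.eq_of_beq_eq_true hm
      rw [hZF] at hv
      refine ⟨0, fun _ => le_rfl, ?_⟩
      rw [hv.full]
      simp
    · rw [List.any_eq_true] at hm
      obtain ⟨p, hp, hpZ⟩ := hm
      have hpZ' : p.1 = Z := Nat.eq_of_beq_eq_true hpZ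
      have hok : okFace p = true := by
        have h1 := List.all_eq_true.1 faces_ok
        rcases lt_or_ge (Z % 17) faces.length with hlt | hge
        · rw [List.getD_eq_getElem _ _ hlt] at hp
          exact List.all_eq_true.1 (h1 _ (List.getElem_mem hlt)) p hp
        · rw [List.getD_eq_default _ _ hge] at hp
          simp at hp
      unfold okFace at hok
      simp only [Bool.and_eq_true] at hok
      obtain ⟨⟨hr, hland⟩, hchild⟩ := hok
      rw [hpZ'] at hland hchild
      have hr' : p.2 < 20 := by rw [← Nat.blt_eq]; exact hr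
      let r : Fin 20 := ⟨p.2, hr'⟩
      have hland' : Z &&& rowMask.getD p.2 0 = 0 := Nat.eq_of_beq_eq_true hland
      obtain ⟨j0, hj0⟩ := B_nonempty r
      obtain ⟨js, hjs, hmin⟩ := Finset.exists_min_image
        (Finset.univ.filter fun j : Fin 28 => B r j = true) (hf y) ⟨j0, by simp [hj0]⟩
      have hBjs : B r js = true := by simpa using hjs
      set t := hf y js with ht
      have ht0 : 0 ≤ t := hy js
      let y' := y - t • wR r
      have hy'val : ∀ j, hf y' j = hf y j - t * (if B r j then 1 else 0) := by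
        intro j
        rw [← hf_wR]
        exact hf_sub _ _ _ _
      have hy' : InCone y' := by
        intro j
        rw [hy'val]
        split_ifs with hb
        · have := hmin j (by simp [hb])
          linarith
        · have := hy j
          linarith
      have hv' : Van y' (Nat.lor Z (2 ^ (js : ℕ))) := by
        refine Van.lor ?_ ?_
        · intro j hj
          rw [hy'val, hv j hj]
          have hb : B r j = false := by
            have h1 : (Z &&& rowMask.getD p.2 0).testBit (j : ℕ) = false := by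
              rw [hland']; simp
            rw [Nat.testBit_and, hj, Bool.true_and] at h1
            exact h1
          simp [hb]
        · intro j hj
          rw [Nat.testBit_two_pow] at hj
          have : js = j := Fin.ext (of_decide_eq_true hj)
          rw [← this, hy'val, hBjs]
          simp [ht]
      have hc := List.all_eq_true.1 hchild (js : ℕ) (List.mem_range.2 js.2)
      rw [Bool.or_eq_true] at hc
      have hc' : okTrans Z 2 (pass (Nat.lor Z (2 ^ (js : ℕ)))) = true := by
        rcases hc with hc | hc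
        · have : (rowMask.getD p.2 0).testBit (js : ℕ) = true := hBjs
          rw [this] at hc
          exact absurd hc (by simp)
        · exact hc
      obtain ⟨P', h1, h2, h3, h4⟩ := okTrans_sound hy' (pass_sound hy' hv') hc'
      obtain ⟨c, hc0, hcy⟩ := ih P' (by omega) h2 h3 y' hy' h4
      refine ⟨c + Pi.single r t, ?_, ?_⟩
      · intro i
        have := hc0 i
        rw [Pi.add_apply, Pi.single_apply]
        split_ifs
        · exact add_nonneg this ht0
        · simpa using this
      · have hyy : y = y' + t • wR r := by simp [y']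
        rw [hyy, hcy]
        simp only [Pi.add_apply, add_smul, Finset.sum_add_distrib]
        congr 1
        rw [Finset.sum_eq_single r]
        · simp
        · intro i _ hi
          rw [Pi.single_eq_of_ne hi, zero_smul]
        · intro h; exact absurd (Finset.mem_univ r) h

/-- Vertices. -/
def vert0 (i : Fin 20) (k : Fin 8) : ℝ := (wI i k.succ : ℝ)
/-- Facet normals. -/
def normal0 (j : Fin 28) (k : Fin 8) : ℝ := -(hI j k.succ : ℝ)
/-- Right-hand sides. -/
def rhs0 (j : Fin 28) : ℝ := (hI j 0 : ℝ)

theorem hf_cons (x : Fin 8 → ℝ) (j : Fin 28) :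
    hf (Fin.cons 1 x : Fin 9 → ℝ) j = rhs0 j - normal0 j ⬝ᵥ x := by
  unfold hf rhs0
  rw [Fin.sum_univ_succ]
  simp only [Fin.cons_zero, Fin.cons_succ, mul_one, dotProduct, normal0, neg_mul,
    Finset.sum_neg_distrib]
  ring

theorem cons_vert0 (i : Fin 20) : (Fin.cons 1 (vert0 i) : Fin 9 → ℝ) = wR i := by
  ext k
  refine Fin.cases ?_ (fun k => ?_) k
  · simp [wR, w_zero i]
  · rfl

theorem slack0 (i : Fin 20) (j : Fin 28) :
    rhs0 j - normal0 j ⬝ᵥ vert0 i = if B i j then 1 else 0 := by
  rw [← hf_cons, cons_vert0, hf_wR]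

/-- The body of the example. -/
def body0 : Set (Fin 8 → ℝ) := {x | ∀ j, normal0 j ⬝ᵥ x ≤ rhs0 j}

theorem vert0_mem (i : Fin 20) : vert0 i ∈ body0 := by
  intro j
  have := slack0 i j
  split_ifs at this <;> linarith

theorem body0_eq : body0 = convexHull ℝ (Set.range vert0) := by
  apply Set.Subset.antisymm
  · intro x hx
    have hy : InCone (Fin.cons 1 x : Fin 9 → ℝ) := by
      intro j
      rw [hf_cons]
      have := hx j
      linarith
    obtain ⟨c, hc0, hc⟩ := cone_claim (2 ^ 28) 0 (by norm_num) (by norm_num) mem_zero _ hy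
      (by intro j hj; simp at hj)
    have h1 : ∑ i, c i = 1 := by
      have := congrFun hc 0
      simp only [Fin.cons_zero, Finset.sum_apply, Pi.smul_apply, smul_eq_mul, wR, w_zero,
        Int.cast_one, mul_one] at this
      exact this.symm
    have h2 : x = ∑ i, c i • vert0 i := by
      ext k
      have := congrFun hc k.succ
      simp only [Fin.cons_succ, Finset.sum_apply, Pi.smul_apply, smul_eq_mul, wR] at this
      rw [this, Finset.sum_apply]
      rfl
    rw [h2]
    exact (convex_convexHull ℝ _).sum_mem (fun i _ => hc0 i) h1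
      (fun i _ => subset_convexHull ℝ _ ⟨i, rfl⟩)
  · refine convexHull_min ?_ ?_
    · rintro _ ⟨i, rfl⟩
      exact vert0_mem i
    · intro x hx y hy a b ha hb hab j
      rw [dotProduct_add, dotProduct_smul, dotProduct_smul, smul_eq_mul, smul_eq_mul]
      have h1 := mul_le_mul_of_nonneg_left (hx j) ha
      have h2 := mul_le_mul_of_nonneg_left (hy j) hb
      have h3 : a * rhs0 j + b * rhs0 j = rhs0 j := by rw [← add_mul, hab, one_mul]
      linarith

theorem vert0_bool (i : Fin 20) (k : Fin 8) : vert0 i k = 0 ∨ vert0 i k = 1 := by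
  unfold vert0
  rcases w_bool i k.succ with h | h
  · left; rw [h]; simp
  · right; rw [h]; simp

theorem body0_cube {x : Fin 8 → ℝ} (hx : x ∈ body0) (k : Fin 8) : 0 ≤ x k ∧ x k ≤ 1 := by
  have hconv : Convex ℝ {x : Fin 8 → ℝ | ∀ k, 0 ≤ x k ∧ x k ≤ 1} := by
    intro x hx y hy a b ha hb hab k
    have h1 := hx k
    have h2 := hy k
    simp only [Pi.add_apply, Pi.smul_apply, smul_eq_mul]
    constructor
    · exact add_nonneg (mul_nonneg ha h1.1) (mul_nonneg hb h2.1)
    · have h3 := mul_le_mul_of_nonneg_left h1.2 ha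
      have h4 := mul_le_mul_of_nonneg_left h2.2 hb
      linarith
  have hsub : convexHull ℝ (Set.range vert0) ⊆ {x : Fin 8 → ℝ | ∀ k, 0 ≤ x k ∧ x k ≤ 1} := by
    refine convexHull_min ?_ hconv
    rintro _ ⟨i, rfl⟩ k
    rcases vert0_bool i k with h | h <;> rw [h] <;> norm_num
  rw [body0_eq] at hx
  exact hsub hx k

theorem vert0_extreme (i : Fin 20) : vert0 i ∈ body0.extremePoints ℝ := by
  rw [mem_extremePoints]
  refine ⟨vert0_mem i, ?_⟩
  rintro x hx y hy ⟨a, b, ha, hb, hab, hxy⟩
  have key : ∀ k, x k = vert0 i k ∧ y k = vert0 i k := by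
    intro k
    have h1 := body0_cube hx k
    have h2 := body0_cube hy k
    have h3 := congrFun hxy k
    simp only [Pi.add_apply, Pi.smul_apply, smul_eq_mul] at h3
    rcases vert0_bool i k with h | h
    · rw [h] at h3 ⊢
      constructor
      · nlinarith [mul_nonneg ha.le h1.1, mul_nonneg hb.le h2.1]
      · nlinarith [mul_nonneg ha.le h1.1, mul_nonneg hb.le h2.1]
    · rw [h] at h3 ⊢
      have h4 : a * (1 - x k) + b * (1 - y k) = 0 := by linarith
      constructor
      · nlinarith [mul_nonneg ha.le (sub_nonneg.2 h1.2), mul_nonneg hb.le (sub_nonneg.2 h2.2)]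
      · nlinarith [mul_nonneg ha.le (sub_nonneg.2 h1.2), mul_nonneg hb.le (sub_nonneg.2 h2.2)]
  exact ⟨funext fun k => (key k).1, funext fun k => (key k).2⟩

theorem vert0_injective : Function.Injective vert0 := by
  intro i i' h
  apply w_inj
  intro k
  have := congrFun h k
  unfold vert0 at this
  exact_mod_cast this

/-- Triangular patterns give affinely independent vertices. -/
theorem affineIndependent0 {s : ℕ} (r : Fin s → Fin 20) (c : Fin s → Fin 28)
    (h0 : ∀ l k, l < k → B (r l) (c k) = false) (h1 : ∀ k, B (r k) (c k) = true) :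
    AffineIndependent ℝ (fun l => vert0 (r l)) := by
  rw [affineIndependent_iff]
  intro S w hw hwv
  let M : Matrix (Fin s) (Fin s) ℝ := Matrix.of fun l k => if B (r l) (c k) then 1 else 0
  have hM : M.det ≠ 0 := by
    rw [Matrix.det_of_isLowerTriangular]
    · rw [Finset.prod_ne_zero_iff]
      intro i _
      simp [M, h1 i]
    · intro l k hlk
      have hlk' : l < k := by simpa using hlk
      simp [M, h0 l k hlk']
  let w' : Fin s → ℝ := fun l => if l ∈ S then w l else 0
  have hwM : w' ᵥ* M = 0 := by
    ext k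
    have h2 : (w' ᵥ* M) k = ∑ l ∈ S, w l * (rhs0 (c k) - normal0 (c k) ⬝ᵥ vert0 (r l)) := by
      simp only [Matrix.vecMul, dotProduct, w', M, Matrix.of_apply, ite_mul, zero_mul]
      rw [Finset.sum_ite_mem, Finset.univ_inter]
      refine Finset.sum_congr rfl fun l _ => ?_
      rw [← slack0]
      rfl
    rw [h2, Pi.zero_apply]
    have h3 : ∑ l ∈ S, w l * (rhs0 (c k) - normal0 (c k) ⬝ᵥ vert0 (r l)) =
        (∑ l ∈ S, w l) * rhs0 (c k) - normal0 (c k) ⬝ᵥ (∑ l ∈ S, w l • vert0 (r l)) := by
      rw [dotProduct_sum, Finset.sum_mul, ← Finset.sum_sub_distrib]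
      refine Finset.sum_congr rfl fun l _ => ?_
      rw [dotProduct_smul, smul_eq_mul]
      ring
    rw [h3, hw, hwv]
    simp
  have hz : w' = 0 := Matrix.eq_zero_of_vecMul_eq_zero hM hwM
  intro e he
  have := congrFun hz e
  simpa [w', he] using this

theorem full_dimensional0 : affineSpan ℝ body0 = ⊤ := by
  have h := affineIndependent0 (fun l => flagRow 0 l) (fun k => flagCol 0 k)
    (fun l k hlk => flag_zero 0 l k hlk) (fun k => flag_diag 0 k)
  have h1 : affineSpan ℝ (Set.range fun l => vert0 (flagRow 0 l)) = ⊤ := by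
    rw [h.affineSpan_eq_top_iff_card_eq_finrank_add_one]
    simp
  rw [eq_top_iff, ← h1]
  apply affineSpan_mono
  rintro _ ⟨l, rfl⟩
  exact vert0_mem _

theorem facet0 (j : Fin 28) : IsFacetInequality body0 (normal0 j) (rhs0 j) := by
  let F := {x ∈ body0 | normal0 j ⬝ᵥ x = rhs0 j}
  have hF : ∀ i, B i j = false → vert0 i ∈ F := by
    intro i hi
    refine ⟨vert0_mem i, ?_⟩
    have := slack0 i j
    rw [hi] at this
    simp only [Bool.false_eq_true, if_false] at this
    linarith
  have hrow : ∀ l : Fin 8, B (flagRow j l.castSucc) j = false := by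
    intro l
    have := flag_zero j l.castSucc 8 (by rw [Fin.lt_def]; exact l.2)
    rwa [flag_last] at this
  refine ⟨fun x hx => hx j, ⟨_, hF _ (hrow 0)⟩, ?_⟩
  have hlow : 7 ≤ Module.finrank ℝ (vectorSpan ℝ F) := by
    have h := affineIndependent0 (fun l : Fin 8 => flagRow j l.castSucc)
      (fun k : Fin 8 => flagCol j k.castSucc)
      (fun l k hlk => flag_zero j _ _ (by simpa using hlk)) (fun k => flag_diag j _)
    have h1 := h.finrank_vectorSpan (n := 7) (by simp)
    rw [← h1]
    apply Submodule.finrank_mono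
    apply vectorSpan_mono
    rintro _ ⟨l, rfl⟩
    exact hF _ (hrow l)
  have hup : Module.finrank ℝ (vectorSpan ℝ F) < 8 := by
    have hlt : vectorSpan ℝ F < ⊤ := by
      rw [lt_top_iff_ne_top]
      intro htop
      let φ : (Fin 8 → ℝ) →ₗ[ℝ] ℝ := dotProductBilin ℝ ℝ (normal0 j)
      have hle : vectorSpan ℝ F ≤ LinearMap.ker φ := by
        rw [vectorSpan_def, Submodule.span_le]
        rintro _ ⟨a, ha, b, hb, rfl⟩
        show normal0 j ⬝ᵥ (a - b) = 0
        rw [dotProduct_sub, ha.2, hb.2, sub_self]
      rw [htop, top_le_iff] at hle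
      have h1 := slack0 (flagRow j 8) j
      have h2 := slack0 (flagRow j 0) j
      have h3 : B (flagRow j 8) j = true := by
        have := flag_diag j 8
        rwa [flag_last] at this
      have h4 : B (flagRow j 0) j = false := hrow 0
      have h5 : ∀ x, normal0 j ⬝ᵥ x = 0 := by
        intro x
        have : x ∈ LinearMap.ker φ := by rw [hle]; trivial
        exact this
      rw [h5, h3] at h1
      rw [h5, h4] at h2
      simp only [if_true, Bool.false_eq_true, if_false] at h1 h2
      linarith
    have := Submodule.finrank_lt hlt.ne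
    simpa using this
  show Module.finrank ℝ (vectorSpan ℝ F) + 1 = 8
  omega

theorem facet_injective0 :
    Function.Injective fun j => {x ∈ body0 | normal0 j ⬝ᵥ x = rhs0 j} := by
  intro j j' h
  apply B_col_inj
  intro i
  have h1 : (vert0 i ∈ {x ∈ body0 | normal0 j ⬝ᵥ x = rhs0 j}) ↔
      (vert0 i ∈ {x ∈ body0 | normal0 j' ⬝ᵥ x = rhs0 j'}) := by
    simp only at h
    rw [h]
  have h2 : ∀ j, (vert0 i ∈ {x ∈ body0 | normal0 j ⬝ᵥ x = rhs0 j}) ↔ B i j = false := by
    intro j
    have hs := slack0 i j
    constructor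
    · rintro ⟨-, h⟩
      rw [h, sub_self] at hs
      cases hB : B i j with
      | false => rfl
      | true => rw [hB] at hs; norm_num at hs
    · intro hB
      rw [hB] at hs
      simp only [Bool.false_eq_true, if_false] at hs
      exact ⟨vert0_mem i, by linarith⟩
  rw [h2, h2] at h1
  cases hj : B i j <;> cases hj' : B i j' <;> simp_all

/-- The 8-dimensional polytope with 20 vertices and 28 facets. -/
noncomputable def P0 : Polytope 8 20 28 where
  body := body0
  vert := vert0
  normal := normal0
  rhs := rhs0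
  body_eq_convexHull := body0_eq
  full_dimensional := full_dimensional0
  vert_injective := vert0_injective
  vert_extreme := vert0_extreme
  body_eq_inequalities := rfl
  facet := facet0
  facet_injective := facet_injective0

theorem P0_slack (i : Fin 20) (j : Fin 28) : P0.slack i j = if B i j then 1 else 0 := slack0 i j

theorem P0_slack_eq_zero (i : Fin 20) (j : Fin 28) : P0.slack i j = 0 ↔ B i j = false := by
  rw [P0_slack]
  cases B i j <;> simp

end Pool.Agent.Lib.MP_fd5214_co
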