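import Mathlib
import Pool.Agent.Lib.MP_fd5214_co.Defs
import Pool.Agent.Lib.MP_fd5214_co.Check
import Pool.Agent.Lib.MP_fd5214_co.Hull

/-!
# The slack ideal of the example is not binomial
-/

namespace Pool.Agent.Lib.MP_fd5214_co

open Matrix MvPolynomial

/-- Evaluation at the entries of a matrix. -/
noncomputable def evalAt {d n m : ℕ} (P : Polytope d n m) (X : Fin n → Fin m → ℝ) :
    MvPolynomial P.Var ℝ →+* ℝ :=
  MvPolynomial.eval (fun p : P.Var => X p.1.1 p.1.2)

theorem evalAt_symbolic {d n m : ℕ} {P : Polytope d n m} {X : Fin n → Fin m → ℝ}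
    (hz : ∀ i j, P.slack i j = 0 → X i j = 0) (i : Fin n) (j : Fin m) :
    evalAt P X (P.symbolicSlack i j) = X i j := by
  unfold Polytope.symbolicSlack evalAt
  simp only [Matrix.of_apply]
  split_ifs with h
  · simp
  · rw [map_zero, hz i j (not_not.1 h)]

theorem evalAt_minor {d n m k : ℕ} {P : Polytope d n m} {X : Fin n → Fin m → ℝ}
    (hz : ∀ i j, P.slack i j = 0 → X i j = 0) (r : Fin k → Fin n) (c : Fin k → Fin m) :
    evalAt P X (P.symbolicSlack.submatrix r c).det = (Matrix.of fun p q => X (r p) (c q)).det := by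
  rw [RingHom.map_det]
  congr 1
  ext p q
  simp only [RingHom.mapMatrix_apply, Matrix.map_apply, Matrix.submatrix_apply, Matrix.of_apply]
  exact evalAt_symbolic hz _ _

theorem det_eq_zero_of_factor {n m D : ℕ} {X : Fin n → Fin m → ℝ} (A : Fin n → Fin D → ℝ)
    (C : Fin m → Fin D → ℝ) (hX : ∀ i j, X i j = A i ⬝ᵥ C j)
    (r : Fin (D + 1) → Fin n) (c : Fin (D + 1) → Fin m) :
    (Matrix.of fun p q => X (r p) (c q)).det = 0 := by
  have hdep : ¬ LinearIndependent ℝ (fun i => A (r i)) := by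
    intro h
    have := h.fintype_card_le_finrank
    simp at this
  obtain ⟨g, hg, i₀, hi₀⟩ := Fintype.not_linearIndependent_iff.1 hdep
  apply Matrix.exists_vecMul_eq_zero_iff.1
  refine ⟨g, fun h => hi₀ (by rw [h]; rfl), ?_⟩
  ext q
  have h1 : (∑ i, g i • A (r i)) ⬝ᵥ C (c q) = 0 := by rw [hg, zero_dotProduct]
  rw [sum_dotProduct] at h1
  rw [Pi.zero_apply, ← h1]
  simp only [Matrix.vecMul, dotProduct, Matrix.of_apply]
  refine Finset.sum_congr rfl fun i _ => ?_
  rw [hX]
  simp only [Pi.smul_apply, smul_eq_mul, dotProduct, Finset.mul_sum, mul_assoc]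

/-- The slack ideal vanishes at every matrix of rank at most `d + 1` with the given support. -/
theorem evalAt_slackIdeal {d n m : ℕ} {P : Polytope d n m} {X : Fin n → Fin m → ℝ}
    (hz : ∀ i j, P.slack i j = 0 → X i j = 0) (hnz : ∀ i j, P.slack i j ≠ 0 → X i j ≠ 0)
    (A : Fin n → Fin (d + 1) → ℝ) (C : Fin m → Fin (d + 1) → ℝ)
    (hX : ∀ i j, X i j = A i ⬝ᵥ C j) : ∀ f ∈ P.slackIdeal, evalAt P X f = 0 := by
  rintro f ⟨N, hN⟩
  have hle : minorIdeal (d + 2) P.symbolicSlack ≤ RingHom.ker (evalAt P X) := by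
    unfold minorIdeal
    rw [Ideal.span_le]
    rintro _ ⟨r, c, rfl⟩
    rw [SetLike.mem_coe, RingHom.mem_ker, evalAt_minor hz]
    exact det_eq_zero_of_factor A C hX r c
  have h1 : evalAt P X _ = 0 := hle hN
  rw [map_mul, map_pow, map_prod] at h1
  rcases mul_eq_zero.1 h1 with h2 | h2
  · exfalso
    have h3 : ∏ p : P.Var, evalAt P X (MvPolynomial.X p) = 0 := by
      by_contra hne
      exact pow_ne_zero N hne h2
    rw [Finset.prod_eq_zero_iff] at h3
    obtain ⟨p, -, hp⟩ := h3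
    unfold evalAt at hp
    rw [MvPolynomial.eval_X] at hp
    exact hnz _ _ p.2 hp
  · exact h2

theorem minor_mem_slackIdeal {d n m : ℕ} (P : Polytope d n m) (r : Fin (d + 2) ↪o Fin n)
    (c : Fin (d + 2) ↪o Fin m) : (P.symbolicSlack.submatrix r c).det ∈ P.slackIdeal :=
  ⟨0, by rw [pow_zero, one_mul]; exact Ideal.subset_span ⟨r, c, rfl⟩⟩

theorem eval_monomial_eq {σ : Type*} [Fintype σ] (x : σ → ℝ) (a : σ →₀ ℕ) (s : ℝ) :
    MvPolynomial.eval x (MvPolynomial.monomial a s) = s * ∏ i, x i ^ a i := by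
  rw [MvPolynomial.eval_monomial, Finsupp.prod_fintype]
  intro i; simp

/-- If an ideal generated by polynomials with at most two terms vanishes at the all-ones point and
at two points, it vanishes at their coordinatewise product. -/
theorem binomial_hadamard {σ : Type*} [Fintype σ] {T : Set (MvPolynomial σ ℝ)}
    (hT : ∀ f ∈ T, ∃ (a b : σ →₀ ℕ) (s t : ℝ),
      f = MvPolynomial.monomial a s + MvPolynomial.monomial b t)
    (x y : σ → ℝ) (h1 : ∀ f ∈ Ideal.span T, MvPolynomial.eval (fun _ => 1) f = 0)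
    (hx : ∀ f ∈ Ideal.span T, MvPolynomial.eval x f = 0)
    (hy : ∀ f ∈ Ideal.span T, MvPolynomial.eval y f = 0) :
    ∀ f ∈ Ideal.span T, MvPolynomial.eval (fun i => x i * y i) f = 0 := by
  have hle : Ideal.span T ≤ RingHom.ker (MvPolynomial.eval fun i => x i * y i) := by
    rw [Ideal.span_le]
    intro f hf
    obtain ⟨a, b, s, t, rfl⟩ := hT f hf
    have hfI := Ideal.subset_span hf
    have e1 := h1 _ hfI
    have ex := hx _ hfI
    have ey := hy _ hfI
    rw [map_add, eval_monomial_eq, eval_monomial_eq] at e1 ex ey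
    simp only [one_pow, Finset.prod_const_one, mul_one] at e1
    rw [SetLike.mem_coe, RingHom.mem_ker, map_add, eval_monomial_eq, eval_monomial_eq]
    have ht : t = -s := by linarith
    rw [ht] at ex ey ⊢
    rcases eq_or_ne s 0 with rfl | hs0
    · simp
    have ex' : ∏ i, x i ^ a i = ∏ i, x i ^ b i := by
      apply mul_left_cancel₀ hs0; linarith
    have ey' : ∏ i, y i ^ a i = ∏ i, y i ^ b i := by
      apply mul_left_cancel₀ hs0; linarith
    simp only [mul_pow, Finset.prod_mul_distrib]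
    rw [ex', ey']
    ring
  exact fun f hf => hle hf

theorem two_terms {σ : Type*} {f : MvPolynomial σ ℝ} (h : f.support.card ≤ 2) :
    ∃ (a b : σ →₀ ℕ) (s t : ℝ), f = MvPolynomial.monomial a s + MvPolynomial.monomial b t := by
  classical
  have hf := f.support_sum_monomial_coeff
  interval_cases hc : f.support.card
  · rw [Finset.card_eq_zero] at hc
    rw [hc, Finset.sum_empty] at hf
    exact ⟨0, 0, 0, 0, by rw [← hf]; simp⟩
  · rw [Finset.card_eq_one] at hc
    obtain ⟨a, ha⟩ := hc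
    rw [ha, Finset.sum_singleton] at hf
    exact ⟨a, 0, f.coeff a, 0, by rw [map_zero, add_zero]; exact hf.symm⟩
  · rw [Finset.card_eq_two] at hc
    obtain ⟨a, b, hab, hs⟩ := hc
    rw [hs, Finset.sum_pair hab] at hf
    exact ⟨a, b, f.coeff a, f.coeff b, hf.symm⟩

/-! ### The two points and the minor -/

def XAi (i : Fin 20) (j : Fin 28) : ℤ := part0 TA i j + part1 TA i j * 2
def XBi (i : Fin 20) (j : Fin 28) : ℤ := part0 TB i j + part1 TB i j * 2

def mR : List (Fin 20) := [2, 5, 6, 7, 8, 10, 12, 13, 15, 19]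
def mC : List (Fin 28) := [0, 1, 3, 7, 14, 17, 18, 23, 25, 27]
def mN : List (List ℤ) := [
  [-1, 0, 0, -1, 1, 0, 0, 0, 1, 2],
  [0, 0, 0, 1, 0, -1, 0, 1, -1, 0],
  [0, 0, 0, 0, 0, 2, 0, -2, 2, 0],
  [2, -2, -2, 0, -2, 8, -2, 0, 0, 0],
  [-1, 2, 0, 0, 1, -5, 2, 1, 0, 0],
  [-2, 2, 2, 0, 2, -6, 2, 0, 0, 0],
  [1, -1, -1, 0, -1, 2, 0, 0, 0, 0],
  [0, 0, 0, 0, 2, 0, 0, 0, 0, 0],
  [-1, 2, 2, 0, 1, -3, 0, -1, 0, 0],
  [2, -4, 0, 0, -2, 8, -4, 0, 0, 0]]

def mr (p : Fin 10) : Fin 20 := mR.getD p 0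
def mc (p : Fin 10) : Fin 28 := mC.getD p 0
def mn (p q : Fin 10) : ℤ := (mN.getD p []).getD q 0

theorem mr_mono : ∀ p q : Fin 10, p < q → mr p < mr q := by decide +kernel
theorem mc_mono : ∀ p q : Fin 10, p < q → mc p < mc q := by decide +kernel

theorem minor_inv : ∀ p q : Fin 10,
    ∑ k : Fin 10, (XAi (mr p) (mc k) * XBi (mr p) (mc k)) * mn k q = if p = q then 2 else 0 := by
  decide +kernel

theorem det_minor_ne_zero :
    (Matrix.of fun p q : Fin 10 =>
      ((XAi (mr p) (mc q) : ℝ) * (XBi (mr p) (mc q) : ℝ))).det ≠ 0 := by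
  have h : (Matrix.of fun p q : Fin 10 =>
      ((XAi (mr p) (mc q) : ℝ) * (XBi (mr p) (mc q) : ℝ))) *
      (Matrix.of fun p q : Fin 10 => (mn p q : ℝ)) = (2 : ℝ) • (1 : Matrix (Fin 10) (Fin 10) ℝ) := by
    ext p q
    have h1 := congrArg (Int.cast : ℤ → ℝ) (minor_inv p q)
    rw [Matrix.mul_apply, Matrix.smul_apply, Matrix.one_apply]
    simp only [Matrix.of_apply]
    push_cast at h1
    rw [h1]
    split_ifs <;> simp
  intro h0
  have h2 := congrArg Matrix.det h
  rw [Matrix.det_mul, h0, zero_mul, Matrix.det_smul, Matrix.det_one] at h2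
  norm_num at h2

theorem part_zero {T : Fin 20 → Fin 28 → Bool} {i : Fin 20} {j : Fin 28} (h : B i j = false) :
    part0 T i j = 0 ∧ part1 T i j = 0 := by
  simp [part0, part1, h]

theorem part_pos {T : Fin 20 → Fin 28 → Bool} {i : Fin 20} {j : Fin 28} (h : B i j = true) :
    part0 T i j + part1 T i j * 2 ≠ 0 := by
  unfold part0 part1
  rw [h]
  cases T i j <;> norm_num

/-- Factorization of the point of a family at parameter `2`. -/
theorem factor_two {T : Fin 20 → Fin 28 → Bool} {c : List (Fin 28)}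
    {g0 g1 : Fin 9 → Fin 28 → ℤ} (hok : ∀ i j, okFactor T c g0 g1 i j) (i : Fin 20)
    (j : Fin 28) : ((part0 T i j + part1 T i j * 2 : ℤ) : ℝ) =
      (fun k : Fin 9 => ((part0 T i (col c k) : ℝ) + (part1 T i (col c k) : ℝ) * 2)) ⬝ᵥ
        (fun k : Fin 9 => ((g0 k j : ℝ) + (g1 k j : ℝ) * 2)) := by
  obtain ⟨h0, h1, h2⟩ := hok i j
  have h0' := congrArg (Int.cast : ℤ → ℝ) h0
  have h1' := congrArg (Int.cast : ℤ → ℝ) h1
  have h2' := congrArg (Int.cast : ℤ → ℝ) h2
  unfold sum9 at h0' h1' h2'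
  push_cast at h0' h1' h2' ⊢
  simp only [dotProduct]
  rw [sum9R]
  linear_combination -h0' - 2 * h1' - 4 * h2'

theorem eval_point {T : Fin 20 → Fin 28 → Bool} {c : List (Fin 28)}
    {g0 g1 : Fin 9 → Fin 28 → ℤ} (hok : ∀ i j, okFactor T c g0 g1 i j) :
    ∀ f ∈ P0.slackIdeal,
      evalAt P0 (fun i j => ((part0 T i j + part1 T i j * 2 : ℤ) : ℝ)) f = 0 := by
  refine evalAt_slackIdeal ?_ ?_ _ _ (factor_two hok)
  · intro i j h
    rw [P0_slack_eq_zero] at h
    obtain ⟨h1, h2⟩ := part_zero (T := T) h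
    rw [h1, h2]; simp
  · intro i j h
    have hB : B i j = true := by
      cases hB : B i j with
      | true => rfl
      | false => exact absurd ((P0_slack_eq_zero i j).2 hB) h
    exact_mod_cast part_pos (T := T) hB

theorem eval_ones : ∀ f ∈ P0.slackIdeal, MvPolynomial.eval (fun _ : P0.Var => (1 : ℝ)) f = 0 := by
  intro f hf
  have h := evalAt_slackIdeal (P := P0) (X := P0.slack) (fun i j h => h) (fun i j h => h)
    (fun i => (Fin.cons 1 (P0.vert i) : Fin 9 → ℝ))
    (fun j => (Fin.cons (P0.rhs j) (-P0.normal j) : Fin 9 → ℝ)) ?_ f hf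
  · unfold evalAt at h
    have h0 : (fun p : P0.Var => P0.slack p.1.1 p.1.2) = fun _ => 1 := by
      funext p
      have h1 := p.2
      rw [P0_slack] at h1 ⊢
      split_ifs with hb
      · rfl
      · rw [if_neg hb] at h1; exact absurd rfl h1
    rw [h0] at h
    exact h
  · intro i j
    simp only [dotProduct, Fin.sum_univ_succ (n := 8), Fin.cons_zero, Fin.cons_succ,
      Pi.neg_apply, mul_neg, Finset.sum_neg_distrib, one_mul]
    unfold Polytope.slack
    simp only [dotProduct, mul_comm (P0.vert i _), sub_eq_add_neg]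

theorem P0_not_two_terms (T : Set (MvPolynomial P0.Var ℝ)) (hT : ∀ f ∈ T,
    ∃ (a b : P0.Var →₀ ℕ) (s t : ℝ),
      f = MvPolynomial.monomial a s + MvPolynomial.monomial b t) :
    Ideal.span T ≠ P0.slackIdeal := by
  intro hI
  have hA := eval_point factorA_ok
  have hB := eval_point factorB_ok
  have h1 := eval_ones
  unfold evalAt at hA hB
  rw [← hI] at hA hB h1
  have h := binomial_hadamard hT _ _ h1 hA hB
  rw [hI] at h
  let r : Fin 10 ↪o Fin 20 := OrderEmbedding.ofStrictMono mr fun p q h => mr_mono p q h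
  let c : Fin 10 ↪o Fin 28 := OrderEmbedding.ofStrictMono mc fun p q h => mc_mono p q h
  have h1 := h _ (minor_mem_slackIdeal P0 r c)
  have h2 := evalAt_minor (P := P0)
    (X := fun i j => ((part0 TA i j + part1 TA i j * 2 : ℤ) : ℝ) *
      ((part0 TB i j + part1 TB i j * 2 : ℤ) : ℝ)) (by
        intro i j h
        rw [P0_slack_eq_zero] at h
        obtain ⟨h1, h2⟩ := part_zero (T := TA) h
        rw [h1, h2]; simp) r c
  unfold evalAt at h2
  rw [h2] at h1
  exact det_minor_ne_zero h1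

theorem P0_not_binomial : ¬ IsBinomialIdeal P0.slackIdeal := by
  rintro ⟨T, hT, hI⟩
  refine P0_not_two_terms T (fun f hf => ?_) hI
  obtain ⟨a, b, s, t, -, -, h⟩ := hT f hf
  exact ⟨a, b, s, t, h⟩

theorem P0_not_card_two : ¬ ∃ T : Set (MvPolynomial P0.Var ℝ),
    (∀ f ∈ T, f.support.card ≤ 2) ∧ Ideal.span T = P0.slackIdeal := by
  rintro ⟨T, hT, hI⟩
  exact P0_not_two_terms T (fun f hf => two_terms (hT f hf)) hI

end Pool.Agent.Lib.MP_fd5214_co
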