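import Mathlib
import Pool.Agent.Lib.MP_fd5214_co.Defs

/-!
# Psd lifts: lower bound for the psd rank, and lifts from Hadamard square roots
-/

namespace Pool.Agent.Lib.MP_fd5214_co

open Matrix

/-! ### A comparison lemma for psd matrices -/

theorem quad_sum_vecMulVec {k s : ℕ} (v : Fin s → Fin k → ℝ) (x : Fin k → ℝ) :
    x ⬝ᵥ ((∑ i, vecMulVec (v i) (star (v i))) *ᵥ x) = ∑ i, (v i ⬝ᵥ x) ^ 2 := by
  rw [Matrix.sum_mulVec, dotProduct_sum]
  refine Finset.sum_congr rfl fun i _ => ?_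
  rw [vecMulVec_mulVec]
  simp only [star_trivial, dotProduct_smul]
  rw [dotProduct_comm x (v i), MulOpposite.smul_eq_mul_unop, MulOpposite.unop_op]
  ring

theorem exists_bound {k : ℕ} {Y Z : Matrix (Fin k) (Fin k) ℝ} (hY : Y.PosSemidef)
    (hZ : Z.PosSemidef) (hker : ∀ x, Y *ᵥ x = 0 → Z *ᵥ x = 0) :
    ∃ c : ℝ, 0 ≤ c ∧ ∀ x, x ⬝ᵥ (Z *ᵥ x) ≤ c * (x ⬝ᵥ (Y *ᵥ x)) := by
  obtain ⟨s, v, rfl⟩ := Matrix.posSemidef_iff_eq_sum_vecMulVec.1 hY
  obtain ⟨t, z, rfl⟩ := Matrix.posSemidef_iff_eq_sum_vecMulVec.1 hZ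
  have hspan : ∀ j, ∃ g : Fin s → ℝ, ∀ x, z j ⬝ᵥ x = ∑ i, g i * (v i ⬝ᵥ x) := by
    intro j
    have h := mem_span_of_iInf_ker_le_ker (𝕜 := ℝ)
      (L := fun i => (dotProductBilin ℝ ℝ (v i) : (Fin k → ℝ) →ₗ[ℝ] ℝ))
      (K := (dotProductBilin ℝ ℝ (z j) : (Fin k → ℝ) →ₗ[ℝ] ℝ)) ?_
    · obtain ⟨g, hg⟩ := (Submodule.mem_span_range_iff_exists_fun ℝ).1 h
      refine ⟨g, fun x => ?_⟩
      have := LinearMap.congr_fun hg x
      simp only [LinearMap.coe_sum, Finset.sum_apply, LinearMap.smul_apply, smul_eq_mul] at this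
      exact this.symm
    · intro x hx
      rw [Submodule.mem_iInf] at hx
      have hv : ∀ i, v i ⬝ᵥ x = 0 := fun i => hx i
      have h1 : (∑ i, vecMulVec (v i) (star (v i))) *ᵥ x = 0 := by
        rw [Matrix.sum_mulVec]
        refine Finset.sum_eq_zero fun i _ => ?_
        rw [vecMulVec_mulVec]
        simp [hv i]
      have h2 := hker x h1
      have h3 : x ⬝ᵥ ((∑ i, vecMulVec (z i) (star (z i))) *ᵥ x) = 0 := by rw [h2]; simp
      rw [quad_sum_vecMulVec] at h3
      have h4 := (Finset.sum_eq_zero_iff_of_nonneg (fun i _ => sq_nonneg _)).1 h3 j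
        (Finset.mem_univ j)
      exact pow_eq_zero_iff (two_ne_zero) |>.1 h4
  choose g hg using hspan
  refine ⟨∑ j, ∑ i, g j i ^ 2, Finset.sum_nonneg fun j _ => Finset.sum_nonneg fun i _ =>
    sq_nonneg _, fun x => ?_⟩
  rw [quad_sum_vecMulVec, quad_sum_vecMulVec, Finset.sum_mul]
  refine Finset.sum_le_sum fun j _ => ?_
  rw [hg j x]
  exact Finset.sum_mul_sq_le_sq_mul_sq _ _ _

/-- Triangular vertex-facet patterns (flags). -/
structure Core {d n m : ℕ} (P : Polytope d n m) (r : Fin (d + 1) → Fin n)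
    (c : Fin (d + 1) → Fin m) : Prop where
  zero : ∀ l k, l < k → P.slack (r l) (c k) = 0
  diag : ∀ k, P.slack (r k) (c k) ≠ 0

theorem Polytope.vert_mem {d n m : ℕ} (P : Polytope d n m) (i : Fin n) : P.vert i ∈ P.body := by
  rw [P.body_eq_convexHull]
  exact subset_convexHull ℝ _ ⟨i, rfl⟩

theorem Polytope.slack_nonneg {d n m : ℕ} (P : Polytope d n m) (i : Fin n) (j : Fin m) :
    0 ≤ P.slack i j := by
  have h := P.vert_mem i
  rw [P.body_eq_inequalities] at h
  have := h j
  unfold Polytope.slack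
  linarith

theorem Polytope.isBounded {d n m : ℕ} (P : Polytope d n m) : Bornology.IsBounded P.body := by
  rw [P.body_eq_convexHull]
  exact (isBounded_convexHull.2 (Set.finite_range _).isBounded)

/-- The psd rank of a `d`-polytope is at least `d + 1`. -/
theorem succ_le_of_hasPsdLift {d n m : ℕ} (P : Polytope d n m) (hd : 1 ≤ d)
    {r : Fin (d + 1) → Fin n} {c : Fin (d + 1) → Fin m} (hc : Core P r c) {k : ℕ}
    (h : HasPsdLift P.body k) : d + 1 ≤ k := by
  obtain ⟨L, π, -, hL⟩ := h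
  have hZ : ∀ l, ∃ Z, Z.PosSemidef ∧ Z ∈ L ∧ π Z = P.vert (r l) := by
    intro l
    have := P.vert_mem (r l)
    rw [hL] at this
    obtain ⟨Z, ⟨h1, h2⟩, h3⟩ := this
    exact ⟨Z, h1, h2, h3⟩
  choose Z hZp hZL hZv using hZ
  have hbody : ∀ Y, Y.PosSemidef → Y ∈ L → π Y ∈ P.body := by
    intro Y h1 h2
    rw [hL]
    exact ⟨Y, ⟨h1, h2⟩, rfl⟩
  -- averages
  have hY : ∀ t : ℕ, 1 ≤ t → t ≤ d + 1 → ∃ Y : Matrix (Fin k) (Fin k) ℝ, Y.PosSemidef ∧ Y ∈ L ∧
      (∀ x, Y *ᵥ x = 0 → ∀ i : Fin (d + 1), (i : ℕ) < t → Z i *ᵥ x = 0) ∧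
      ∀ s : Fin (d + 1), t ≤ (s : ℕ) → P.normal (c s) ⬝ᵥ π Y = P.rhs (c s) := by
    intro t ht
    induction t, ht using Nat.le_induction with
    | base =>
      intro _
      refine ⟨Z 0, hZp 0, hZL 0, ?_, ?_⟩
      · intro x hx i hi
        have : i = 0 := by
          apply Fin.ext
          simp only [Fin.val_zero]
          omega
        rw [this]; exact hx
      · intro s hs
        have := hc.zero 0 s (by rw [Fin.lt_def]; simp only [Fin.val_zero]; omega)
        unfold Polytope.slack at this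
        rw [hZv]
        linarith
    | succ t ht ih =>
      intro htd
      obtain ⟨Y, hYp, hYL, hYk, hYs⟩ := ih (by omega)
      let a : Fin (d + 1) := ⟨t, by omega⟩
      refine ⟨(1 / 2 : ℝ) • Y + (1 / 2 : ℝ) • Z a, ?_, ?_, ?_, ?_⟩
      · exact (hYp.smul (by norm_num)).add ((hZp a).smul (by norm_num))
      · exact L.convex hYL (hZL a) (by norm_num) (by norm_num) (by norm_num)
      · intro x hx i hi
        have hq : x ⬝ᵥ (((1 / 2 : ℝ) • Y + (1 / 2 : ℝ) • Z a) *ᵥ x) = 0 := by rw [hx]; simp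
        rw [add_mulVec, dotProduct_add, smul_mulVec, smul_mulVec, dotProduct_smul,
          dotProduct_smul] at hq
        have h1 : 0 ≤ x ⬝ᵥ (Y *ᵥ x) := by simpa using hYp.dotProduct_mulVec_nonneg x
        have h2 : 0 ≤ x ⬝ᵥ (Z a *ᵥ x) := by simpa using (hZp a).dotProduct_mulVec_nonneg x
        simp only [smul_eq_mul] at hq
        have h3 : x ⬝ᵥ (Y *ᵥ x) = 0 := by linarith
        have h4 : x ⬝ᵥ (Z a *ᵥ x) = 0 := by linarith
        rcases Nat.lt_succ_iff_lt_or_eq.1 hi with hlt | heq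
        · exact hYk x ((hYp.dotProduct_mulVec_zero_iff x).1 (by simpa using h3)) i hlt
        · have : i = a := Fin.ext heq
          rw [this]
          exact ((hZp a).dotProduct_mulVec_zero_iff x).1 (by simpa using h4)
      · intro s hs
        rw [map_add, map_smul, map_smul, dotProduct_add, dotProduct_smul, dotProduct_smul,
          hYs s (by omega), hZv]
        have := hc.zero a s (by rw [Fin.lt_def]; show t < (s : ℕ); omega)
        unfold Polytope.slack at this
        simp only [smul_eq_mul]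
        linarith
  -- the kernels
  let S : ℕ → Submodule ℝ (Fin k → ℝ) := fun t =>
    ⨅ i : Fin (d + 1), ⨅ _ : (i : ℕ) < t, LinearMap.ker (Z i).mulVecLin
  have hmem : ∀ t x, x ∈ S t ↔ ∀ i : Fin (d + 1), (i : ℕ) < t → Z i *ᵥ x = 0 := by
    intro t x
    simp only [S, Submodule.mem_iInf, LinearMap.mem_ker, mulVecLin_apply]
  have hstep : ∀ t : ℕ, t ≤ d → S (t + 1) < S t := by
    intro t ht
    refine lt_of_le_of_ne ?_ ?_
    · intro x hx
      rw [hmem] at hx ⊢
      exact fun i hi => hx i (by omega)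
    · intro heq
      let a : Fin (d + 1) := ⟨t, by omega⟩
      have hle : ∀ x, (∀ i : Fin (d + 1), (i : ℕ) < t → Z i *ᵥ x = 0) → Z a *ᵥ x = 0 := by
        intro x hx
        have : x ∈ S (t + 1) := by rw [heq, hmem]; exact hx
        rw [hmem] at this
        exact this a (Nat.lt_succ_self t)
      rcases Nat.eq_zero_or_pos t with h0 | hpos
      · -- `Z 0 = 0`
        have hz : Z a = 0 := by
          apply Matrix.ext_of_mulVec_single
          intro i
          rw [hle _ (fun i hi => by omega), zero_mulVec]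
        have ha : a = 0 := Fin.ext h0
        rw [ha] at hz
        have hv0 : P.vert (r 0) = 0 := by rw [← hZv 0, hz, map_zero]
        let b : Fin (d + 1) := ⟨1, by omega⟩
        have hvb : P.vert (r b) ≠ 0 := by
          intro hb
          have h1 : r b = r 0 := P.vert_injective (by rw [hb, hv0])
          have h2 := hc.zero 0 b (by rw [Fin.lt_def]; show 0 < 1; norm_num)
          have h3 := hc.diag b
          rw [h1] at h3
          exact h3 h2
        have hray : ∀ s : ℝ, 0 ≤ s → s • P.vert (r b) ∈ P.body := by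
          intro s hs
          rw [← hZv b, ← map_smul]
          refine hbody _ ((hZp b).smul hs) ?_
          have h0L : (0 : Matrix (Fin k) (Fin k) ℝ) ∈ L := by rw [← hz]; exact hZL 0
          have := L.smul_vsub_vadd_mem s (hZL b) h0L h0L
          simpa using this
        obtain ⟨R, hR⟩ := P.isBounded.exists_norm_le
        have hn : 0 < ‖P.vert (r b)‖ := norm_pos_iff.2 hvb
        have h1 := hR _ (hray ((|R| + 1) / ‖P.vert (r b)‖) (by positivity))
        rw [norm_smul, Real.norm_of_nonneg (by positivity), div_mul_cancel₀ _ hn.ne'] at h1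
        have := le_abs_self R
        linarith
      · obtain ⟨Y, hYp, hYL, hYk, hYs⟩ := hY t hpos (by omega)
        obtain ⟨C, hC0, hC⟩ := exists_bound hYp (hZp a) (fun x hx => hle x (hYk x hx))
        let ε : ℝ := 1 / (C + 1)
        have hε : 0 < ε := by positivity
        have hεC : ε * C ≤ 1 := by
          have : ε * (C + 1) = 1 := by simp only [ε]; field_simp
          nlinarith
        let W : Matrix (Fin k) (Fin k) ℝ := (1 + ε) • Y - ε • Z a
        have hW : W.PosSemidef := by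
          refine Matrix.PosSemidef.of_dotProduct_mulVec_nonneg ?_ ?_
          · have h1 := hYp.isHermitian
            have h2 := (hZp a).isHermitian
            unfold Matrix.IsHermitian at h1 h2 ⊢
            simp only [W, conjTranspose_sub, conjTranspose_smul, h1, h2, star_trivial]
          · intro x
            simp only [W, sub_mulVec, smul_mulVec, dotProduct_sub, dotProduct_smul, star_trivial,
              smul_eq_mul]
            have h1 : 0 ≤ x ⬝ᵥ (Y *ᵥ x) := by simpa using hYp.dotProduct_mulVec_nonneg x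
            have h2 := hC x
            have h3 : ε * (x ⬝ᵥ (Z a *ᵥ x)) ≤ ε * (C * (x ⬝ᵥ (Y *ᵥ x))) :=
              mul_le_mul_of_nonneg_left h2 hε.le
            have h4 : ε * (C * (x ⬝ᵥ (Y *ᵥ x))) ≤ 1 * (x ⬝ᵥ (Y *ᵥ x)) := by
              rw [← mul_assoc]
              exact mul_le_mul_of_nonneg_right hεC h1
            nlinarith
        have hWL : W ∈ L := by
          have := L.smul_vsub_vadd_mem (-ε) (hZL a) hYL hYL
          have he : (-ε) • (Z a -ᵥ Y) +ᵥ Y = W := by
            simp only [vsub_eq_sub, vadd_eq_add, W]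
            rw [smul_sub, add_smul, neg_smul, neg_smul, one_smul]
            abel
          rwa [he] at this
        have hmemb := hbody W hW hWL
        rw [P.body_eq_inequalities] at hmemb
        have h5 := hmemb (c a)
        have h6 := hYs a le_rfl
        have h7 := hc.diag a
        have h8 := P.slack_nonneg (r a) (c a)
        have h9 : 0 < P.slack (r a) (c a) := lt_of_le_of_ne h8 (Ne.symm h7)
        unfold Polytope.slack at h9
        simp only [W, map_sub, map_smul, dotProduct_sub, dotProduct_smul, smul_eq_mul, h6,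
          hZv] at h5
        nlinarith
  have hfin : ∀ t : ℕ, t ≤ d + 1 → Module.finrank ℝ (S t) + t ≤ k := by
    intro t
    induction t with
    | zero =>
      intro _
      have : Module.finrank ℝ (S 0) ≤ Module.finrank ℝ (Fin k → ℝ) := Submodule.finrank_le _
      simpa using this
    | succ t ih =>
      intro ht
      have h1 := ih (by omega)
      have h2 := Submodule.finrank_lt_finrank_of_lt (hstep t (by omega))
      omega
  have := hfin (d + 1) le_rfl
  omega

/-! ### Lifts from Hadamard square roots -/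

/-- `Y ↦ C ⬝ Y C` as a linear map. -/
def quad {k : ℕ} (C : Fin k → ℝ) : Matrix (Fin k) (Fin k) ℝ →ₗ[ℝ] ℝ where
  toFun Y := C ⬝ᵥ (Y *ᵥ C)
  map_add' Y Z := by rw [add_mulVec, dotProduct_add]
  map_smul' a Y := by rw [smul_mulVec, dotProduct_smul, RingHom.id_apply]

theorem quad_apply {k : ℕ} (C : Fin k → ℝ) (Y : Matrix (Fin k) (Fin k) ℝ) :
    quad C Y = C ⬝ᵥ (Y *ᵥ C) := rfl

theorem cons_dotProduct {d : ℕ} (P : Fin d → ℝ) (b : ℝ) (x : Fin d → ℝ) :
    (Fin.cons b (-P) : Fin (d + 1) → ℝ) ⬝ᵥ (Fin.cons 1 x : Fin (d + 1) → ℝ) = b - P ⬝ᵥ x := by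
  simp only [dotProduct, Fin.sum_univ_succ, Fin.cons_zero, Fin.cons_succ, Pi.neg_apply, neg_mul,
    Finset.sum_neg_distrib, mul_one]
  ring

/-- If the slack matrix has a Hadamard square root of rank at most `d + 1`, then the polytope has
a psd lift of size `d + 1`. -/
theorem hasPsdLift_of_sqrt {d n m : ℕ} (P : Polytope d n m)
    {r : Fin (d + 1) → Fin n} {c : Fin (d + 1) → Fin m} (hc : Core P r c)
    (A : Fin n → Fin (d + 1) → ℝ) (C : Fin m → Fin (d + 1) → ℝ)
    (h : ∀ i j, P.slack i j = (A i ⬝ᵥ C j) ^ 2) : HasPsdLift P.body (d + 1) := by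
  -- the core functionals are independent
  let H : Matrix (Fin (d + 1)) (Fin (d + 1)) ℝ :=
    Matrix.of fun k => (Fin.cons (P.rhs (c k)) (-P.normal (c k)) : Fin (d + 1) → ℝ)
  let W : Matrix (Fin (d + 1)) (Fin (d + 1)) ℝ :=
    Matrix.of fun l => (Fin.cons 1 (P.vert (r l)) : Fin (d + 1) → ℝ)
  have hHW : ∀ l k, (W * Hᵀ) l k = P.slack (r l) (c k) := by
    intro l k
    rw [Matrix.mul_apply']
    have : (fun j => W l j) ⬝ᵥ (fun j => Hᵀ j k) =
        (Fin.cons (P.rhs (c k)) (-P.normal (c k)) : Fin (d + 1) → ℝ) ⬝ᵥ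
          (Fin.cons 1 (P.vert (r l)) : Fin (d + 1) → ℝ) := dotProduct_comm _ _
    rw [this, cons_dotProduct]
    rfl
  have hdet : (W * Hᵀ).det ≠ 0 := by
    rw [Matrix.det_of_isLowerTriangular]
    · rw [Finset.prod_ne_zero_iff]
      intro i _
      rw [hHW]
      exact hc.diag i
    · intro l k hlk
      rw [hHW]
      exact hc.zero l k (by simpa using hlk)
  have hHdet : IsUnit H.det := by
    rw [Matrix.det_mul, Matrix.det_transpose] at hdet
    exact isUnit_iff_ne_zero.2 (right_ne_zero_of_mul hdet)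
  let π : Matrix (Fin (d + 1)) (Fin (d + 1)) ℝ →ₗ[ℝ] (Fin d → ℝ) :=
    (LinearMap.funLeft ℝ ℝ Fin.succ).comp
      ((H⁻¹).mulVecLin.comp (LinearMap.pi fun k => quad (C (c k))))
  have hπ : ∀ Y x, (∀ j, quad (C j) Y = P.rhs j - P.normal j ⬝ᵥ x) → π Y = x := by
    intro Y x hx
    have h1 : (LinearMap.pi fun k => quad (C (c k))) Y =
        H *ᵥ (Fin.cons 1 x : Fin (d + 1) → ℝ) := by
      ext k
      rw [LinearMap.pi_apply, hx]
      have : (H *ᵥ (Fin.cons 1 x : Fin (d + 1) → ℝ)) k =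
        (Fin.cons (P.rhs (c k)) (-P.normal (c k)) : Fin (d + 1) → ℝ) ⬝ᵥ
          (Fin.cons 1 x : Fin (d + 1) → ℝ) := rfl
      rw [this, cons_dotProduct]
    simp only [π, LinearMap.comp_apply, h1, mulVecLin_apply, mulVec_mulVec,
      Matrix.nonsing_inv_mul _ hHdet, one_mulVec]
    ext i
    simp [LinearMap.funLeft_apply]
  let L : AffineSubspace ℝ (Matrix (Fin (d + 1)) (Fin (d + 1)) ℝ) :=
    { carrier := {Y | Y.IsSymm ∧ ∃ x, ∀ j, quad (C j) Y = P.rhs j - P.normal j ⬝ᵥ x}
      smul_vsub_vadd_mem' := by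
        rintro a Y₁ Y₂ Y₃ ⟨s₁, x₁, h₁⟩ ⟨s₂, x₂, h₂⟩ ⟨s₃, x₃, h₃⟩
        refine ⟨?_, a • (x₁ - x₂) + x₃, fun j => ?_⟩
        · unfold Matrix.IsSymm at *
          simp only [vsub_eq_sub, vadd_eq_add, transpose_add, transpose_smul, transpose_sub, s₁,
            s₂, s₃]
        · simp only [vsub_eq_sub, vadd_eq_add, map_add, map_smul, map_sub, h₁ j, h₂ j, h₃ j,
            dotProduct_add, dotProduct_smul, dotProduct_sub, smul_eq_mul]
          ring }
  have hLmem : ∀ Y, Y ∈ L ↔ Y.IsSymm ∧ ∃ x, ∀ j, quad (C j) Y = P.rhs j - P.normal j ⬝ᵥ x :=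
    fun Y => Iff.rfl
  refine ⟨L, π, fun Y hY => ((hLmem Y).1 hY).1, ?_⟩
  apply Set.Subset.antisymm
  · have hconv : Convex ℝ (π '' {Y | Y.PosSemidef ∧ Y ∈ L}) := by
      apply Convex.linear_image
      intro Y₁ h₁ Y₂ h₂ a b ha hb hab
      exact ⟨(h₁.1.smul ha).add (h₂.1.smul hb), L.convex h₁.2 h₂.2 ha hb hab⟩
    rw [P.body_eq_convexHull]
    refine convexHull_min ?_ hconv
    rintro _ ⟨i, rfl⟩
    have hq : ∀ j, quad (C j) (vecMulVec (A i) (A i)) =
        P.rhs j - P.normal j ⬝ᵥ P.vert i := by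
      intro j
      have := h i j
      unfold Polytope.slack at this
      rw [this, quad_apply, vecMulVec_mulVec, dotProduct_smul, MulOpposite.smul_eq_mul_unop,
        MulOpposite.unop_op, dotProduct_comm (C j) (A i)]
      ring
    have hpsd : (vecMulVec (A i) (A i)).PosSemidef := by
      have := Matrix.posSemidef_vecMulVec_self_star (A i)
      simpa using this
    refine ⟨vecMulVec (A i) (A i), ⟨hpsd, ?_⟩, hπ _ _ hq⟩
    rw [hLmem]
    refine ⟨?_, _, hq⟩
    unfold Matrix.IsSymm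
    rw [transpose_vecMulVec]
  · rintro _ ⟨Y, ⟨hYp, hYL⟩, rfl⟩
    obtain ⟨-, x, hx⟩ := (hLmem Y).1 hYL
    rw [hπ Y x hx, P.body_eq_inequalities]
    intro j
    have h1 : 0 ≤ quad (C j) Y := by
      rw [quad_apply]
      simpa using hYp.dotProduct_mulVec_nonneg (C j)
    rw [hx j] at h1
    linarith

/-- Psd-minimality from a Hadamard square root of rank at most `d + 1`. -/
theorem psdMinimal_of_sqrt {d n m : ℕ} (P : Polytope d n m) (hd : 1 ≤ d)
    {r : Fin (d + 1) → Fin n} {c : Fin (d + 1) → Fin m} (hc : Core P r c)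
    (A : Fin n → Fin (d + 1) → ℝ) (C : Fin m → Fin (d + 1) → ℝ)
    (h : ∀ i j, P.slack i j = (A i ⬝ᵥ C j) ^ 2) : PsdMinimal P := by
  have h1 := hasPsdLift_of_sqrt P hc A C h
  unfold PsdMinimal psdRank
  apply le_antisymm
  · exact Nat.sInf_le h1
  · exact le_csInf ⟨_, h1⟩ fun k hk => succ_le_of_hasPsdLift P hd hc hk

end Pool.Agent.Lib.MP_fd5214_co
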