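import Mathlib
import Pool.Agent.Lib.MP_fd5214_co.Lift
import Pool.Agent.Lib.MP_fd5214_co.Factor
import Pool.Agent.Lib.MP_fd5214_co.Ideal

/-!
# The example is combinatorially psd-minimal
-/

namespace Pool.Agent.Lib.MP_fd5214_co

open Matrix

theorem P0_combPsdMinimal : CombPsdMinimal P0 := by
  rintro n' m' Q ⟨σ, τ, h⟩
  let X : Fin 20 → Fin 28 → ℝ := fun i j => Q.slack (σ i) (τ j)
  have hX : Filling X := by
    refine ⟨⟨fun i => (Fin.cons 1 (Q.vert (σ i)) : Fin 9 → ℝ),
      fun j => (Fin.cons (Q.rhs (τ j)) (-Q.normal (τ j)) : Fin 9 → ℝ), ?_⟩, ?_, ?_⟩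
    · intro i j
      rw [dotProduct_comm, cons_dotProduct]
      rfl
    · intro i j hB
      exact (h i j).1 ((P0_slack_eq_zero i j).2 hB)
    · intro i j hB
      refine lt_of_le_of_ne (Q.slack_nonneg _ _) fun h0 => ?_
      have h1 := (P0_slack_eq_zero i j).1 ((h i j).2 h0.symm)
      rw [hB] at h1
      exact absurd h1 (by simp)
  obtain ⟨A, C, hAC⟩ := hX.sqrt_factor
  refine psdMinimal_of_sqrt Q (by norm_num) (r := fun l => σ (flagRow 0 l))
    (c := fun k => τ (flagCol 0 k)) ⟨?_, ?_⟩ (fun i => A (σ.symm i)) (fun j => C (τ.symm j)) ?_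
  · intro l k hlk
    exact hX.zero _ _ (flag_zero 0 l k hlk)
  · intro k
    exact (hX.pos _ _ (flag_diag 0 k)).ne'
  · intro i j
    have := hAC (σ.symm i) (τ.symm j)
    simp only [X, Equiv.apply_symm_apply] at this
    exact this

end Pool.Agent.Lib.MP_fd5214_co
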